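import Pool.Agent.TH795.EP.Poly
import Pool.Agent.H981R2.Polyg

/-!
The number of arches is at least the number of polygons.
-/

set_option autoImplicit false

namespace Pool.Agent.TH795.EP

open H981 Finset

/-- decoding of a loop -/
def dec (m : ℕ) (i : ZMod m) (w : List St) (k : ZMod m) : ℤ × ℤ :=
  ((path w (k - (i + 1)).val).1 - (path w (0 - (i + 1)).val).1,
    (path w (k - (i + 1)).val).2 - (path w (0 - (i + 1)).val).2)

theorem loop_arch {j : ℕ} (hj : 2 ≤ j) {f : ZMod (2 * j) → ℤ × ℤ} (hf : IsLoop (2 * j) f) :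
    ∃ (i : ZMod (2 * j)) (b : Bool) (t : List St), Arch t ∧ t.length = 2 * j - 1 ∧
      f = dec (2 * j) i (if b then t else sg t) := by
  classical
  obtain ⟨h0, hinj, hadj⟩ := hf
  have : NeZero (2 * j) := ⟨by omega⟩
  have : Fact (1 < 2 * j) := ⟨by omega⟩
  obtain ⟨i0, hmax⟩ := Finite.exists_max (fun k : ZMod (2 * j) => (f k).2)
  -- a horizontal edge in the top row
  have hedge : ∃ i : ZMod (2 * j), (f i).2 = (f i0).2 ∧ (f (i + 1)).2 = (f i0).2 := by
    by_contra hcon
    push Not at hcon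
    have a1 : (f (i0 + 1)).2 ≠ (f i0).2 := hcon i0 rfl
    have a2 : (f (i0 - 1)).2 ≠ (f i0).2 := by
      intro h
      have := hcon (i0 - 1) h
      rw [sub_add_cancel] at this
      exact this rfl
    have b1 := hadj i0
    have b2 := hadj (i0 - 1)
    rw [sub_add_cancel] at b2
    have c1 := hmax (i0 + 1)
    have c2 := hmax (i0 - 1)
    have n1 := abs_nonneg ((f (i0 + 1)).1 - (f i0).1)
    have n2 := abs_nonneg ((f i0).1 - (f (i0 - 1)).1)
    have d1 : |(f (i0 + 1)).2 - (f i0).2| = (f i0).2 - (f (i0 + 1)).2 := by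
      rw [abs_of_nonpos (by omega)]; ring
    have d2 : |(f i0).2 - (f (i0 - 1)).2| = (f i0).2 - (f (i0 - 1)).2 := by
      rw [abs_of_nonneg (by omega)]
    rw [d1] at b1
    rw [d2] at b2
    have e1 : |(f (i0 + 1)).1 - (f i0).1| = 0 := by omega
    have e2 : |(f i0).1 - (f (i0 - 1)).1| = 0 := by omega
    rw [abs_eq_zero] at e1 e2
    have heq : f (i0 + 1) = f (i0 - 1) := Prod.ext (by omega) (by omega)
    have h2 := hinj heq
    have h3 : (2 : ZMod (2 * j)) = 0 := by
      have : i0 + 1 - (i0 - 1) = 0 := sub_eq_zero.2 h2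
      rw [← this]; ring
    have h4 : ((2 : ℕ) : ZMod (2 * j)) = 0 := by exact_mod_cast h3
    rw [ZMod.natCast_eq_zero_iff] at h4
    have := Nat.le_of_dvd (by norm_num) h4
    omega
  obtain ⟨i, hi1, hi2⟩ := hedge
  -- the path
  have hval : ∀ k : ℕ, k < 2 * j → ((k : ZMod (2 * j))).val = k := fun k hk =>
    ZMod.val_cast_of_lt hk
  have hcast : ((2 * j : ℕ) : ZMod (2 * j)) = 0 := ZMod.natCast_self _
  let g : Fin (2 * j - 1 + 1) → ℤ × ℤ := fun k =>
    ((f (i + 1 + ((k : ℕ) : ZMod (2 * j)))).1 - (f (i + 1)).1,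
      (f (i + 1 + ((k : ℕ) : ZMod (2 * j)))).2 - (f (i + 1)).2)
  have hg : H981.IsSAW (2 * j - 1) g := by
    refine ⟨?_, ?_, ?_⟩
    · simp [g]
    · intro k
      have h := hadj (i + 1 + ((k : ℕ) : ZMod (2 * j)))
      have e : i + 1 + ((k : ℕ) : ZMod (2 * j)) + 1 = i + 1 + (((k : ℕ) + 1 : ℕ) : ZMod (2 * j)) := by
        push_cast; ring
      rw [e] at h
      simp only [g, Fin.val_succ, Fin.val_castSucc]
      rw [sub_sub_sub_cancel_right, sub_sub_sub_cancel_right]
      exact h
    · intro k l hkl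
      simp only [g, Prod.mk.injEq] at hkl
      have h1 : f (i + 1 + ((k : ℕ) : ZMod (2 * j))) = f (i + 1 + ((l : ℕ) : ZMod (2 * j))) :=
        Prod.ext (by omega) (by omega)
      have h2 := add_left_cancel (hinj h1)
      have h3 := congrArg ZMod.val h2
      rw [hval _ (by omega), hval _ (by omega)] at h3
      exact Fin.ext h3
  obtain ⟨w, hwl, hw⟩ := exists_word' _ g hg
  have hsaw : Saw w := by
    rw [saw_iff _ hwl]
    have : (fun k : Fin (2 * j - 1 + 1) => path w k) = g := funext hw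
    rw [this]
    exact hg.2.2
  have hpath : ∀ k : ℕ, k < 2 * j → path w k =
      ((f (i + 1 + (k : ZMod (2 * j)))).1 - (f (i + 1)).1,
        (f (i + 1 + (k : ZMod (2 * j)))).2 - (f (i + 1)).2) := by
    intro k hk
    exact hw ⟨k, by omega⟩
  have hneg : ∀ k, (path w k).2 ≤ 0 := by
    intro k
    rcases lt_or_ge k (2 * j) with h | h
    · rw [hpath k h]
      have := hmax (i + 1 + (k : ZMod (2 * j)))
      simp only
      omega
    · have e : path w k = path w (2 * j - 1) := by
        unfold path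
        rw [List.take_of_length_le (by omega), List.take_of_length_le (by omega)]
      rw [e, hpath _ (by omega)]
      have := hmax (i + 1 + ((2 * j - 1 : ℕ) : ZMod (2 * j)))
      simp only
      omega
  have hlast : i + 1 + ((2 * j - 1 : ℕ) : ZMod (2 * j)) = i := by
    have : ((2 * j - 1 : ℕ) : ZMod (2 * j)) + 1 = 0 := by
      have h := hcast
      rw [show (2 * j : ℕ) = (2 * j - 1) + 1 by omega] at h
      push_cast at h ⊢
      have h2 : ((2 * j - 1 : ℕ) : ZMod (2 * j - 1 + 1)) + 1 = 0 := by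
        exact_mod_cast ZMod.natCast_self (2 * j - 1 + 1)
      have h3 : 2 * j - 1 + 1 = 2 * j := by omega
      have h4 : (((2 * j - 1 + 1 : ℕ)) : ZMod (2 * j)) = 0 := by rw [h3]; exact hcast
      rw [Nat.cast_add, Nat.cast_one] at h4
      exact h4
    rw [add_assoc, add_comm (1 : ZMod (2 * j)), this, add_zero]
  have hdx : (dx w, dy w) = ((f i).1 - (f (i + 1)).1, (f i).2 - (f (i + 1)).2) := by
    rw [← path_len, hwl, hpath _ (by omega), hlast]
  have hdy : dy w = 0 := by
    have := congrArg Prod.snd hdx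
    simp only at this
    omega
  have hdx1 : dx w = 1 ∨ dx w = -1 := by
    have h1 := hadj i
    have h2 := congrArg Prod.fst hdx
    simp only at h2
    have h3 : (f (i + 1)).2 - (f i).2 = 0 := by omega
    rw [h3, abs_zero, add_zero] at h1
    rcases abs_choice ((f (i + 1)).1 - (f i).1) with h | h <;> omega
  have hdec : f = dec (2 * j) i w := by
    funext k
    unfold dec
    have e1 : i + 1 + (((k - (i + 1)).val : ℕ) : ZMod (2 * j)) = k := by
      rw [ZMod.natCast_val, ZMod.cast_id']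
      simp
    have e2 : i + 1 + (((0 - (i + 1)).val : ℕ) : ZMod (2 * j)) = 0 := by
      rw [ZMod.natCast_val, ZMod.cast_id']
      simp
    rw [hpath _ (ZMod.val_lt _), hpath _ (ZMod.val_lt _), e1, e2, h0]
    apply Prod.ext
    · simp
    · simp
  rcases hdx1 with h | h
  · exact ⟨i, true, w, ⟨hsaw, h, hdy, hneg⟩, hwl, by simpa using hdec⟩
  · refine ⟨i, false, sg w, ⟨hsaw.sg, by rw [dx_sg, h]; norm_num, by rw [dy_sg, hdy], fun k => ?_⟩,
      by rw [length_sg, hwl], by simpa using hdec⟩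
    rw [path_sg_snd]
    exact hneg k

/-- **Arches and polygons.** -/
theorem PP_le_ar {j : ℕ} (hj : 2 ≤ j) : PP j ≤ ar (2 * j - 1) := by
  classical
  have : NeZero (2 * j) := ⟨by omega⟩
  have hcard : Nat.card {f : ZMod (2 * j) → ℤ × ℤ // IsLoop (2 * j) f} ≤
      Nat.card (ZMod (2 * j) × Bool × (fs Arch (2 * j - 1) : Finset (List St))) := by
    choose F hF using fun f : {f : ZMod (2 * j) → ℤ × ℤ // IsLoop (2 * j) f} => loop_arch hj f.2
    choose B hB using hF
    choose T hT using hB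
    apply Nat.card_le_card_of_injective
      (fun f => (F f, B f, (⟨T f, mem_fs.2 ⟨(hT f).1, (hT f).2.1⟩⟩ :
        (fs Arch (2 * j - 1) : Finset (List St)))))
    intro f g hfg
    simp only [Prod.mk.injEq, Subtype.mk.injEq] at hfg
    apply Subtype.ext
    rw [(hT f).2.2, (hT g).2.2, hfg.1, hfg.2.1, hfg.2.2]
  have hb : Nat.card Bool = 2 := by rw [Nat.card_eq_fintype_card, Fintype.card_bool]
  rw [Nat.card_prod, Nat.card_prod, Nat.card_zmod, hb, Nat.card_eq_finsetCard] at hcard
  unfold PP ar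
  have hj0 : (0 : ℝ) < j := by exact_mod_cast (by omega : 0 < j)
  rw [div_le_iff₀ (by positivity)]
  calc ((Nat.card {f : ZMod (2 * j) → ℤ × ℤ // IsLoop (2 * j) f} : ℕ) : ℝ)
      ≤ ((2 * j * (2 * (fs Arch (2 * j - 1)).card) : ℕ) : ℝ) := by exact_mod_cast hcard
    _ = _ := by push_cast; ring

end Pool.Agent.TH795.EP
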