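import Pool.Agent.H981R2.Plain
import Pool.Agent.H981R2.Polyg

/-!
Counting self-avoiding words by displacement: symmetries, gluing at the first meeting point,
first passage, segments.
-/

set_option autoImplicit false

namespace Pool.Agent.TH795.EP

open H981 Finset

theorem fin_words (P : List St → Prop) (n : ℕ) : {w : List St | P w ∧ w.length = n}.Finite :=
  (List.finite_length_eq St n).subset fun _ h => h.2

/-- the words of length `n` with the property `P` -/
noncomputable def fs (P : List St → Prop) (n : ℕ) : Finset (List St) := (fin_words P n).toFinset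

theorem mem_fs {P : List St → Prop} {n : ℕ} {w : List St} : w ∈ fs P n ↔ P w ∧ w.length = n := by
  unfold fs
  rw [Set.Finite.mem_toFinset]
  rfl

/-- number of self-avoiding words -/
noncomputable def c (n : ℕ) : ℕ := (fs Saw n).card

/-- number of self-avoiding words with displacement `(x, y)` -/
noncomputable def a (m : ℕ) (x y : ℤ) : ℕ := (fs (fun w => Saw w ∧ dx w = x ∧ dy w = y) m).card

theorem c_eq (n : ℕ) : (c n : ℝ) = cr' n := by
  rw [cr'_eq, card_eq]
  congr 1
  unfold c
  rw [← Nat.card_eq_finsetCard]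
  apply Nat.card_congr
  apply Equiv.subtypeEquivRight
  intro w
  exact mem_fs

/-- counting by a decoding map -/
theorem card_le_of_decode {α β : Type*} {S : Finset α} {T : Finset β} (g : β → α)
    (h : ∀ p ∈ S, ∃ q ∈ T, g q = p) : S.card ≤ T.card := by
  classical
  calc S.card ≤ (T.image g).card := by
        apply Finset.card_le_card
        intro p hp
        obtain ⟨q, hq, rfl⟩ := h p hp
        exact Finset.mem_image_of_mem g hq
    _ ≤ T.card := Finset.card_image_le

/-! ### symmetries -/

/-- exchange of the coordinates -/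
def sws : St → St
  | .E => .N
  | .N => .E
  | .W => .S
  | .S => .W

def sw (w : List St) : List St := w.map sws

theorem sws_sws (s : St) : sws (sws s) = s := by cases s <;> rfl

theorem sw_sw (w : List St) : sw (sw w) = w := by
  induction w with
  | nil => rfl
  | cons s w ih =>
    unfold sw at ih ⊢
    rw [List.map_cons, List.map_cons, sws_sws, ih]

theorem dx_sw (w : List St) : dx (sw w) = dy w := by
  induction w with
  | nil => rfl
  | cons s w ih =>
    unfold sw at ih ⊢
    rw [List.map_cons, dx_cons, dy_cons, ih]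
    cases s <;> rfl

theorem dy_sw (w : List St) : dy (sw w) = dx w := by
  induction w with
  | nil => rfl
  | cons s w ih =>
    unfold sw at ih ⊢
    rw [List.map_cons, dy_cons, dx_cons, ih]
    cases s <;> rfl

theorem length_sw (w : List St) : (sw w).length = w.length := by simp [sw]

theorem saw_sw {w : List St} (h : Saw w) : Saw (sw w) := by
  intro m hm h1 h2
  have h3 : sw m <:+: w := by
    have := hm.map sws
    change sw m <:+: sw (sw w) at this
    rwa [sw_sw] at this
  have h4 := h _ h3 (by rw [dx_sw]; exact h2) (by rw [dy_sw]; exact h1)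
  unfold sw at h4
  simpa using h4

theorem a_sw (m : ℕ) (x y : ℤ) : a m x y = a m y x := by
  have key : ∀ x y : ℤ, a m x y ≤ a m y x := by
    intro x y
    apply card_le_of_decode sw
    intro w hw
    rw [mem_fs] at hw
    refine ⟨sw w, ?_, sw_sw w⟩
    rw [mem_fs, length_sw, dx_sw, dy_sw]
    exact ⟨⟨saw_sw hw.1.1, hw.1.2.2, hw.1.2.1⟩, hw.2⟩
  exact le_antisymm (key x y) (key y x)

theorem a_ng (m : ℕ) (x y : ℤ) : a m x (-y) = a m x y := by
  have key : ∀ y : ℤ, a m x y ≤ a m x (-y) := by
    intro y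
    apply card_le_of_decode ng
    intro w hw
    rw [mem_fs] at hw
    refine ⟨ng w, ?_, by simp⟩
    rw [mem_fs]
    exact ⟨⟨hw.1.1.ng, by simpa using hw.1.2.1, by rw [dy_ng, hw.1.2.2]⟩, by simpa using hw.2⟩
  refine le_antisymm ?_ (key y)
  have := key (-y)
  rwa [neg_neg] at this

theorem a_sg (m : ℕ) (x y : ℤ) : a m (-x) y = a m x y := by
  rw [a_sw, a_ng, a_sw]

theorem a_abs (m : ℕ) (x y : ℤ) : a m |x| |y| = a m x y := by
  have h1 : ∀ x, a m |x| |y| = a m x |y| := by
    intro x
    rcases abs_choice x with h | h <;> rw [h]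
    rw [a_sg]
  rw [h1]
  rcases abs_choice y with h | h <;> rw [h]
  rw [a_ng]

/-! ### paths -/

theorem path_zero (w : List St) : path w 0 = (0, 0) := by simp [path]

theorem path_len (w : List St) : path w w.length = (dx w, dy w) := by simp [path]

/-- self-avoiding words in terms of paths -/
theorem saw_iff' {w : List St} : Saw w ↔
    ∀ i j, i < j → j ≤ w.length → path w i ≠ path w j := by
  rw [saw_iff w.length rfl]
  constructor
  · intro h i j hij hj he
    have := @h ⟨i, by omega⟩ ⟨j, by omega⟩ he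
    have := congrArg Fin.val this
    simp only at this
    omega
  · intro h i j he
    apply Fin.ext
    by_contra hne
    rcases Nat.lt_or_gt_of_ne hne with h1 | h1
    · exact h i j h1 (by omega) he
    · exact h j i h1 (by omega) he.symm

theorem path_take {w : List St} {i k : ℕ} (h : k ≤ i) : path (w.take i) k = path w k := by
  unfold path
  rw [List.take_take, min_eq_left h]

theorem path_drop (w : List St) (i k : ℕ) :
    path w (i + k) = ((path w i).1 + (path (w.drop i) k).1, (path w i).2 + (path (w.drop i) k).2) := by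
  unfold path
  rw [List.take_add, dx_append, dy_append]

theorem path_append_left {u v : List St} {k : ℕ} (h : k ≤ u.length) :
    path (u ++ v) k = path u k := by
  unfold path
  rw [List.take_append_of_le_length h]

theorem path_append_right (u v : List St) (k : ℕ) :
    path (u ++ v) (u.length + k) = (dx u + (path v k).1, dy u + (path v k).2) := by
  unfold path
  rw [List.take_length_add_append, dx_append, dy_append]

/-! ### gluing -/

theorem glue_exists {u v : List St} (hu : Saw u) (hv : Saw v) :
    ∃ i j, i ≤ u.length ∧ j ≤ v.length ∧ Saw (u.take i ++ v.drop j) ∧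
      dx (u.take i ++ v.drop j) = dx u + dx v ∧ dy (u.take i ++ v.drop j) = dy u + dy v := by
  classical
  have hP : ∃ i, ∃ j, j ≤ v.length ∧ path u i = (dx u + (path v j).1, dy u + (path v j).2) :=
    ⟨u.length, 0, Nat.zero_le _, by rw [path_len, path_zero]; simp⟩
  obtain ⟨j, hj, hij⟩ := Nat.find_spec hP
  obtain ⟨i, hi⟩ : ∃ i, i = Nat.find hP := ⟨_, rfl⟩
  have hmin : ∀ k, k < i → ∀ l ≤ v.length,
      path u k ≠ (dx u + (path v l).1, dy u + (path v l).2) := by
    intro k hk l hl he
    rw [hi] at hk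
    exact Nat.find_min hP hk ⟨l, hl, he⟩
  have hil : i ≤ u.length := by
    rw [hi]
    exact Nat.find_min' hP ⟨0, Nat.zero_le _, by rw [path_len, path_zero]; simp⟩
  rw [← hi] at hij
  have e1 : dx (u.take i) = dx u + dx (v.take j) := congrArg Prod.fst hij
  have e2 : dy (u.take i) = dy u + dy (v.take j) := congrArg Prod.snd hij
  have f1 : dx v = dx (v.take j) + dx (v.drop j) := by
    rw [← dx_append, List.take_append_drop]
  have f2 : dy v = dy (v.take j) + dy (v.drop j) := by
    rw [← dy_append, List.take_append_drop]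
  have hlen : (u.take i).length = i := by rw [List.length_take]; omega
  refine ⟨i, j, hil, hj, ?_, by rw [dx_append]; omega, by rw [dy_append]; omega⟩
  rw [saw_iff']
  intro k l hkl hl
  have hl' : l ≤ i + (v.length - j) := by
    rw [List.length_append, hlen, List.length_drop] at hl
    exact hl
  rcases le_or_gt l i with h1 | h1
  · rw [path_append_left (by omega), path_append_left (by omega), path_take (by omega),
      path_take h1]
    exact saw_iff'.1 hu k l hkl (by omega)
  · obtain ⟨l', rfl⟩ : ∃ l', l = i + l' := ⟨l - i, by omega⟩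
    have g2 : path (u.take i ++ v.drop j) (i + l') =
        (dx u + (path v (j + l')).1, dy u + (path v (j + l')).2) := by
      have := path_append_right (u.take i) (v.drop j) l'
      rw [hlen] at this
      rw [this, path_drop, e1, e2]
      unfold path
      simp only [Prod.mk.injEq]
      constructor <;> ring
    rcases le_or_gt i k with h2 | h2
    · obtain ⟨k', rfl⟩ : ∃ k', k = i + k' := ⟨k - i, by omega⟩
      have g1 : path (u.take i ++ v.drop j) (i + k') =
          (dx u + (path v (j + k')).1, dy u + (path v (j + k')).2) := by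
        have := path_append_right (u.take i) (v.drop j) k'
        rw [hlen] at this
        rw [this, path_drop, e1, e2]
        unfold path
        simp only [Prod.mk.injEq]
        constructor <;> ring
      rw [g1, g2]
      intro he
      simp only [Prod.mk.injEq] at he
      exact saw_iff'.1 hv (j + k') (j + l') (by omega) (by omega)
        (Prod.ext (by omega) (by omega))
    · rw [g2, path_append_left (by omega), path_take h2.le]
      exact hmin k h2 (j + l') (by omega)

theorem glue_card (m1 m2 : ℕ) (x1 y1 x2 y2 : ℤ) :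
    a m1 x1 y1 * a m2 x2 y2 ≤ ∑ p ∈ range (m1 + 1) ×ˢ range (m2 + 1),
      a (p.1 + (m2 - p.2)) (x1 + x2) (y1 + y2) * (c (m1 - p.1) * c p.2) := by
  classical
  unfold a c
  rw [← Finset.card_product]
  have e : ∀ p : ℕ × ℕ, (fs (fun w => Saw w ∧ dx w = x1 + x2 ∧ dy w = y1 + y2)
      (p.1 + (m2 - p.2))).card * ((fs Saw (m1 - p.1)).card * (fs Saw p.2).card) =
      (fs (fun w => Saw w ∧ dx w = x1 + x2 ∧ dy w = y1 + y2) (p.1 + (m2 - p.2)) ×ˢ
        (fs Saw (m1 - p.1) ×ˢ fs Saw p.2)).card := by
    intro p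
    rw [Finset.card_product, Finset.card_product]
  simp only [e]
  rw [← Finset.card_sigma]
  apply card_le_of_decode (fun q => (q.2.1.take q.1.1 ++ q.2.2.1, q.2.2.2 ++ q.2.1.drop q.1.1))
  rintro ⟨u, v⟩ huv
  rw [Finset.mem_product, mem_fs, mem_fs] at huv
  obtain ⟨⟨⟨hu, hux, huy⟩, hul⟩, ⟨hv, hvx, hvy⟩, hvl⟩ := huv
  simp only at hu hux huy hul hv hvx hvy hvl
  obtain ⟨i, j, hi, hj, h1, h2, h3⟩ := glue_exists hu hv
  have hlen : (u.take i).length = i := by rw [List.length_take]; omega
  refine ⟨⟨(i, j), (u.take i ++ v.drop j, u.drop i, v.take j)⟩, ?_, ?_⟩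
  · rw [Finset.mem_sigma, Finset.mem_product, Finset.mem_product, Finset.mem_product,
      mem_fs, mem_fs, mem_fs, Finset.mem_range, Finset.mem_range]
    simp only
    refine ⟨⟨by omega, by omega⟩, ⟨⟨h1, by omega, by omega⟩, ?_⟩, ⟨?_, ?_⟩, ?_, ?_⟩
    · rw [List.length_append, hlen, List.length_drop, hvl]
    · exact hu.subw (List.drop_suffix _ _).isInfix
    · rw [List.length_drop, hul]
    · exact hv.subw (List.take_prefix _ _).isInfix
    · rw [List.length_take]; omega
  · simp only [Prod.mk.injEq]
    have g1 : (u.take i ++ v.drop j).take i = u.take i := by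
      have := List.take_left (l₁ := u.take i) (l₂ := v.drop j)
      rwa [hlen] at this
    have g2 : (u.take i ++ v.drop j).drop i = v.drop j := by
      have := List.drop_left (l₁ := u.take i) (l₂ := v.drop j)
      rwa [hlen] at this
    rw [g1, g2]
    exact ⟨List.take_append_drop _ _, List.take_append_drop _ _⟩

/-! ### first passage -/

theorem dx_take_succ_le (w : List St) (i : ℕ) : dx (w.take (i + 1)) ≤ dx (w.take i) + 1 := by
  rcases lt_or_ge i w.length with h | h
  · have := (path_succ h).1
    unfold path at this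
    simp only at this
    have h2 := (w[i]).x_le
    omega
  · rw [List.take_of_length_le (by omega), List.take_of_length_le h]
    omega

theorem exists_passage {w : List St} {T : ℤ} (hT : 0 ≤ T) (h : T ≤ dx w) :
    ∃ i, i ≤ w.length ∧ dx (w.take i) = T := by
  classical
  have hP : ∃ i, T ≤ dx (w.take i) := ⟨w.length, by rwa [List.take_length]⟩
  obtain ⟨i, hi⟩ : ∃ i, i = Nat.find hP := ⟨_, rfl⟩
  have h1 := Nat.find_spec hP
  have h2 : i ≤ w.length := by rw [hi]; exact Nat.find_min' hP (by rwa [List.take_length])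
  refine ⟨i, h2, ?_⟩
  rw [← hi] at h1
  rcases Nat.eq_zero_or_pos i with h0 | h0
  · rw [h0] at h1 ⊢
    simp at h1 ⊢
    omega
  · obtain ⟨k, rfl⟩ : ∃ k, i = k + 1 := ⟨i - 1, by omega⟩
    have h3 : ¬ T ≤ dx (w.take k) := Nat.find_min hP (by omega)
    have h4 := dx_take_succ_le w k
    omega

theorem abs_dy_le' (w : List St) : |dy w| ≤ w.length := abs_dy_le w

theorem passage_card (N : ℕ) (T : ℤ) (hT : 0 ≤ T) :
    (fs (fun w => Saw w ∧ T ≤ dx w) N).card ≤
      ∑ p ∈ range (N + 1) ×ˢ Icc (-(N : ℤ)) N, a p.1 T p.2 * c (N - p.1) := by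
  classical
  unfold a c
  have e : ∀ p : ℕ × ℤ, (fs (fun w => Saw w ∧ dx w = T ∧ dy w = p.2) p.1).card *
      (fs Saw (N - p.1)).card = (fs (fun w => Saw w ∧ dx w = T ∧ dy w = p.2) p.1 ×ˢ
        fs Saw (N - p.1)).card := by
    intro p
    rw [Finset.card_product]
  simp only [e]
  rw [← Finset.card_sigma]
  apply card_le_of_decode (fun q => q.2.1 ++ q.2.2)
  intro w hw
  rw [mem_fs] at hw
  obtain ⟨⟨hw1, hw2⟩, hwl⟩ := hw
  obtain ⟨i, hi, hiT⟩ := exists_passage hT hw2
  have hlen : (w.take i).length = i := by rw [List.length_take]; omega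
  refine ⟨⟨(i, dy (w.take i)), (w.take i, w.drop i)⟩, ?_, List.take_append_drop _ _⟩
  rw [Finset.mem_sigma, Finset.mem_product, Finset.mem_product, mem_fs, mem_fs,
    Finset.mem_range, Finset.mem_Icc]
  simp only
  have h1 := abs_dy_le (w.take i)
  rw [hlen, abs_le] at h1
  refine ⟨⟨by omega, by omega, by omega⟩, ⟨⟨hw1.subw (List.take_prefix _ _).isInfix, hiT, trivial⟩,
    hlen⟩, hw1.subw (List.drop_suffix _ _).isInfix, ?_⟩
  rw [List.length_drop]
  omega

/-! ### segments -/

/-- squared length of the displacement -/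
def nq (w : List St) : ℤ := dx w ^ 2 + dy w ^ 2

theorem seg_card (k N r : ℕ) (ρ : ℤ) (P : List St → Prop)
    (hP : ∀ w, Saw w → w.length = k * N + r → P w →
      ∃ j < k, ρ ≤ nq ((w.drop (j * N)).take N)) :
    (fs (fun w => Saw w ∧ P w) (k * N + r)).card ≤
      ∑ j ∈ range k, c (j * N) * ((fs (fun w => Saw w ∧ ρ ≤ nq w) N).card *
        c (k * N + r - (j * N + N))) := by
  classical
  unfold c
  have e : ∀ j : ℕ, (fs Saw (j * N)).card * ((fs (fun w => Saw w ∧ ρ ≤ nq w) N).card *
      (fs Saw (k * N + r - (j * N + N))).card) =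
      (fs Saw (j * N) ×ˢ (fs (fun w => Saw w ∧ ρ ≤ nq w) N ×ˢ
        fs Saw (k * N + r - (j * N + N)))).card := by
    intro j
    rw [Finset.card_product, Finset.card_product]
  simp only [e]
  rw [← Finset.card_sigma]
  apply card_le_of_decode (fun q => q.2.1 ++ (q.2.2.1 ++ q.2.2.2))
  intro w hw
  rw [mem_fs] at hw
  obtain ⟨⟨hw1, hw2⟩, hwl⟩ := hw
  obtain ⟨j, hj, hρ⟩ := hP w hw1 hwl hw2
  have hjN : j * N + N ≤ k * N := by
    have : (j + 1) * N ≤ k * N := Nat.mul_le_mul_right N hj
    linarith [this, Nat.succ_mul j N]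
  refine ⟨⟨j, (w.take (j * N), (w.drop (j * N)).take N, (w.drop (j * N)).drop N)⟩, ?_, ?_⟩
  · rw [Finset.mem_sigma, Finset.mem_product, Finset.mem_product, mem_fs, mem_fs, mem_fs,
      Finset.mem_range]
    simp only
    refine ⟨hj, ⟨hw1.subw (List.take_prefix _ _).isInfix, ?_⟩,
      ⟨⟨hw1.subw ?_, hρ⟩, ?_⟩, hw1.subw ?_, ?_⟩
    · rw [List.length_take]; omega
    · exact (List.take_prefix _ _).isInfix.trans (List.drop_suffix _ _).isInfix
    · rw [List.length_take, List.length_drop]; omega
    · exact (List.drop_suffix _ _).isInfix.trans (List.drop_suffix _ _).isInfix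
    · rw [List.length_drop, List.length_drop]; omega
  · simp only
    rw [List.take_append_drop, List.take_append_drop]

/-- directions -/
theorem dir_card (N : ℕ) (ρ T : ℤ) (hT : ∀ x y : ℤ, ρ ≤ x ^ 2 + y ^ 2 → T ≤ |x| ∨ T ≤ |y|) :
    (fs (fun w => Saw w ∧ ρ ≤ nq w) N).card ≤ 4 * (fs (fun w => Saw w ∧ T ≤ dx w) N).card := by
  classical
  have h4 : (4 : ℕ) * (fs (fun w => Saw w ∧ T ≤ dx w) N).card =
      ((univ : Finset (Fin 2 × Fin 2)) ×ˢ fs (fun w => Saw w ∧ T ≤ dx w) N).card := by
    rw [Finset.card_product]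
    rfl
  rw [h4]
  apply card_le_of_decode (fun q => if q.1.1 = 0 then (if q.1.2 = 0 then q.2 else sg q.2) else
    (if q.1.2 = 0 then sw q.2 else sw (sg q.2)))
  intro w hw
  rw [mem_fs] at hw
  obtain ⟨⟨hw1, hw2⟩, hwl⟩ := hw
  have hcase := hT (dx w) (dy w) hw2
  have hh : T ≤ dx w ∨ T ≤ -dx w ∨ T ≤ dy w ∨ T ≤ -dy w := by
    rcases hcase with h | h
    · rcases abs_choice (dx w) with h' | h' <;> rw [h'] at h <;> tauto
    · rcases abs_choice (dy w) with h' | h' <;> rw [h'] at h <;> tauto
  rcases hh with h | h | h | h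
  · refine ⟨((0, 0), w), ?_, by simp⟩
    rw [Finset.mem_product, mem_fs]
    exact ⟨mem_univ _, ⟨hw1, h⟩, hwl⟩
  · refine ⟨((0, 1), sg w), ?_, by simp⟩
    rw [Finset.mem_product, mem_fs]
    exact ⟨mem_univ _, ⟨hw1.sg, by rw [dx_sg]; exact h⟩, by rw [length_sg]; exact hwl⟩
  · refine ⟨((1, 0), sw w), ?_, by simp [sw_sw]⟩
    rw [Finset.mem_product, mem_fs]
    exact ⟨mem_univ _, ⟨saw_sw hw1, by rw [dx_sw]; exact h⟩, by rw [length_sw]; exact hwl⟩
  · refine ⟨((1, 1), sg (sw w)), ?_, by simp [sw_sw]⟩
    rw [Finset.mem_product, mem_fs]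
    exact ⟨mem_univ _, ⟨(saw_sw hw1).sg, by rw [dx_sg, dx_sw]; exact h⟩,
      by rw [length_sg, length_sw]; exact hwl⟩

end Pool.Agent.TH795.EP
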