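import Pool.Agent.TH795.EP.Loop
import Pool.Agent.W387.S.Fin3

/-!
Estimates for the number of self-avoiding words with given displacement.
-/

set_option autoImplicit false

namespace Pool.Agent.TH795.EP

open H981 Finset

/-- the quasi-polynomial factor `exp (A (log n)^3)` -/
noncomputable def q (n : ℕ) (A : ℝ) : ℝ := Real.exp (A * Real.log n ^ 3)

theorem q_pos (n : ℕ) (A : ℝ) : 0 < q n A := Real.exp_pos _

theorem q_mul (n : ℕ) (A B : ℝ) : q n A * q n B = q n (A + B) := by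
  unfold q
  rw [← Real.exp_add]
  congr 1
  ring

theorem log_ge {n : ℕ} (hn : 2 ≤ n) : Real.log 2 ≤ Real.log n :=
  Real.log_le_log (by norm_num) (by exact_mod_cast hn)

theorem log_pos' {n : ℕ} (hn : 2 ≤ n) : 0 < Real.log n :=
  lt_of_lt_of_le (Real.log_pos (by norm_num)) (log_ge hn)

theorem q_mono {n : ℕ} (hn : 2 ≤ n) {A B : ℝ} (h : A ≤ B) : q n A ≤ q n B := by
  unfold q
  apply Real.exp_le_exp.2
  have := log_pos' hn
  exact mul_le_mul_of_nonneg_right h (by positivity)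

theorem q_lt {n : ℕ} (hn : 2 ≤ n) {A B : ℝ} (h : A < B) : q n A < q n B := by
  unfold q
  apply Real.exp_lt_exp.2
  have := log_pos' hn
  exact mul_lt_mul_of_pos_right h (by positivity)

theorem pow_le_q {n : ℕ} (hn : 2 ≤ n) (b : ℕ) : (n : ℝ) ^ b ≤ q n (3 * b) := by
  have h0 : (0 : ℝ) < n := by exact_mod_cast (by omega : 0 < n)
  have hl := log_ge hn
  have h2 : (0.69 : ℝ) ≤ Real.log 2 := by linarith [Real.log_two_gt_d9]
  have h3 : Real.log n ≤ 3 * Real.log n ^ 3 := by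
    have h4 : (0.69 : ℝ) ≤ Real.log n := h2.trans hl
    nlinarith [mul_pos (show (0 : ℝ) < Real.log n by linarith)
      (show (0 : ℝ) < Real.log n by linarith), sq_nonneg (Real.log n - 0.69)]
  unfold q
  calc (n : ℝ) ^ b = Real.exp (b * Real.log n) := by
        rw [← Real.log_pow, Real.exp_log (by positivity)]
    _ ≤ _ := by
        apply Real.exp_le_exp.2
        have : (0 : ℝ) ≤ b := Nat.cast_nonneg b
        nlinarith

/-- the constant for the number of words -/
theorem exists_K : ∃ K : ℝ, 0 ≤ K ∧ (∀ n : ℕ, 2 ≤ n → ∀ k ≤ n, (c k : ℝ) ≤ mu ^ k * q n K) ∧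
    ∀ n : ℕ, 2 ≤ n → ∀ j : ℕ, 2 ≤ j → j ≤ n → mu ^ (2 * j) * q n (-K) ≤ ar (2 * j - 1) := by
  obtain ⟨K0, hK0, h0⟩ := Pool.Agent.W387.S.sq_upper3
  obtain ⟨K1, hK1, h1⟩ := Pool.Agent.W387.S.sq_PP3
  have hmono : ∀ (n k : ℕ), 2 ≤ k → k ≤ n → Real.log k ^ 3 ≤ Real.log n ^ 3 := by
    intro n k hk hkn
    apply pow_le_pow_left₀ (log_pos' hk).le
    exact Real.log_le_log (by exact_mod_cast (by omega : 0 < k)) (by exact_mod_cast hkn)
  refine ⟨K0 + K1 + 6, by positivity, ?_, ?_⟩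
  · intro n hn k hk
    have hmu := one_le_mu
    rcases Nat.lt_or_ge k 2 with h2 | h2
    · have hc : (c k : ℝ) ≤ 4 := by
        interval_cases k
        · rw [c_eq]
          have : cr' 0 ≤ 1 := by
            have h := ENNReal.toReal_mono ENNReal.one_ne_top cc_zero_le
            simpa [cr'] using h
          linarith
        · have : c 1 ≤ 4 := by
            unfold c
            calc (fs Saw 1).card ≤ (univ.image (fun s : St => [s])).card := by
                  apply Finset.card_le_card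
                  intro w hw
                  rw [mem_fs] at hw
                  obtain ⟨s, rfl⟩ := List.length_eq_one_iff.1 hw.2
                  exact Finset.mem_image_of_mem _ (mem_univ s)
              _ ≤ (univ : Finset St).card := Finset.card_image_le
              _ = 4 := rfl
          exact_mod_cast this
      have h3 : (4 : ℝ) ≤ q n 6 := by
        have := pow_le_q hn 2
        have h4 : (2 : ℝ) ≤ n := by exact_mod_cast hn
        norm_num at this
        nlinarith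
      have h5 : q n 6 ≤ q n (K0 + K1 + 6) := q_mono hn (by linarith)
      have h6 : (1 : ℝ) ≤ mu ^ k := one_le_pow₀ hmu
      have := q_pos n (K0 + K1 + 6)
      nlinarith
    · rw [c_eq]
      refine (h0 k h2).trans (mul_le_mul_of_nonneg_left ?_ (pow_nonneg mu_pos.le _))
      unfold q
      apply Real.exp_le_exp.2
      have h3 := hmono n k h2 hk
      have h4 := pow_pos (log_pos' hn) 3
      nlinarith
  · intro n hn j hj hjn
    have h2 := PP_le_ar hj
    refine le_trans ?_ ((h1 j hj).1.trans h2)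
    refine mul_le_mul_of_nonneg_left ?_ (pow_nonneg mu_pos.le _)
    unfold q
    apply Real.exp_le_exp.2
    have h3 := hmono n j hj hjn
    have h4 := pow_pos (log_pos' hn) 3
    nlinarith

/-- the two upper bounds used below -/
def Up (n : ℕ) (K : ℝ) : Prop := ∀ k ≤ n, (c k : ℝ) ≤ mu ^ k * q n K

theorem glue_good {n : ℕ} (hn : 2 ≤ n) {K : ℝ} (hK : Up n K) {m1 m2 : ℕ} (h1 : m1 ≤ n)
    (h2 : m2 ≤ n) {A1 A2 : ℝ} {x1 y1 x2 y2 : ℤ} (ha1 : mu ^ m1 * q n (-A1) ≤ a m1 x1 y1)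
    (ha2 : mu ^ m2 * q n (-A2) ≤ a m2 x2 y2) :
    ∃ m ≤ m1 + m2, mu ^ m * q n (-(A1 + A2 + 2 * K + 13)) ≤ a m (x1 + x2) (y1 + y2) := by
  by_contra hcon
  push Not at hcon
  have hmu := mu_pos
  have hcard := glue_card m1 m2 x1 y1 x2 y2
  have hcard' : ((a m1 x1 y1 : ℝ)) * a m2 x2 y2 ≤ ∑ p ∈ range (m1 + 1) ×ˢ range (m2 + 1),
      (a (p.1 + (m2 - p.2)) (x1 + x2) (y1 + y2) : ℝ) * (c (m1 - p.1) * c p.2) := by
    exact_mod_cast hcard
  have hterm : ∀ p ∈ range (m1 + 1) ×ˢ range (m2 + 1),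
      (a (p.1 + (m2 - p.2)) (x1 + x2) (y1 + y2) : ℝ) * (c (m1 - p.1) * c p.2) ≤
        mu ^ (m1 + m2) * q n (-(A1 + A2 + 13)) := by
    intro p hp
    rw [Finset.mem_product, Finset.mem_range, Finset.mem_range] at hp
    have e1 := (hcon (p.1 + (m2 - p.2)) (by omega)).le
    have e2 := hK (m1 - p.1) (by omega)
    have e3 := hK p.2 (by omega)
    have hp1 : (0 : ℝ) < mu ^ (p.1 + (m2 - p.2)) := pow_pos hmu _
    have hp2 : (0 : ℝ) < mu ^ (m1 - p.1) := pow_pos hmu _
    have hp3 : (0 : ℝ) < mu ^ p.2 := pow_pos hmu _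
    have g1 := q_pos n (-(A1 + A2 + 2 * K + 13))
    have g2 := q_pos n K
    calc (a (p.1 + (m2 - p.2)) (x1 + x2) (y1 + y2) : ℝ) * (c (m1 - p.1) * c p.2)
        ≤ (mu ^ (p.1 + (m2 - p.2)) * q n (-(A1 + A2 + 2 * K + 13))) *
          ((mu ^ (m1 - p.1) * q n K) * (mu ^ p.2 * q n K)) := by
          gcongr
      _ = (mu ^ (p.1 + (m2 - p.2)) * mu ^ (m1 - p.1) * mu ^ p.2) *
          (q n (-(A1 + A2 + 2 * K + 13)) * (q n K * q n K)) := by ring
      _ = _ := by
          rw [← pow_add, ← pow_add, q_mul, q_mul]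
          congr 2
          · omega
          · ring
  have hsum := Finset.sum_le_card_nsmul _ _ _ hterm
  rw [Finset.card_product, Finset.card_range, Finset.card_range, nsmul_eq_mul] at hsum
  have hnum : (((m1 + 1) * (m2 + 1) : ℕ) : ℝ) ≤ q n 12 := by
    have h3 := pow_le_q hn 4
    norm_num at h3
    refine le_trans ?_ h3
    have h4 : (m1 + 1) * (m2 + 1) ≤ n ^ 4 := by
      calc (m1 + 1) * (m2 + 1) ≤ (n + 1) * (n + 1) := Nat.mul_le_mul (by omega) (by omega)
        _ ≤ n ^ 2 * n ^ 2 := by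
            have : n + 1 ≤ n ^ 2 := by nlinarith
            exact Nat.mul_le_mul this this
        _ = n ^ 4 := by ring
    exact_mod_cast h4
  have hP : 0 < mu ^ (m1 + m2) := pow_pos hmu _
  have hlow : mu ^ (m1 + m2) * q n (-(A1 + A2)) ≤ (a m1 x1 y1 : ℝ) * a m2 x2 y2 := by
    have g1 := q_pos n (-A1)
    have g2 := q_pos n (-A2)
    have := mul_le_mul ha1 ha2 (by positivity) (Nat.cast_nonneg _)
    refine le_trans (le_of_eq ?_) this
    rw [show mu ^ m1 * q n (-A1) * (mu ^ m2 * q n (-A2)) =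
      (mu ^ m1 * mu ^ m2) * (q n (-A1) * q n (-A2)) by ring, ← pow_add, q_mul]
    congr 2
    ring
  have hup : (((m1 + 1) * (m2 + 1) : ℕ) : ℝ) * (mu ^ (m1 + m2) * q n (-(A1 + A2 + 13))) <
      mu ^ (m1 + m2) * q n (-(A1 + A2)) := by
    have g1 := q_pos n (-(A1 + A2 + 13))
    calc (((m1 + 1) * (m2 + 1) : ℕ) : ℝ) * (mu ^ (m1 + m2) * q n (-(A1 + A2 + 13)))
        ≤ q n 12 * (mu ^ (m1 + m2) * q n (-(A1 + A2 + 13))) := by gcongr
      _ = mu ^ (m1 + m2) * q n (-(A1 + A2) - 1) := by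
          rw [show q n 12 * (mu ^ (m1 + m2) * q n (-(A1 + A2 + 13))) =
            mu ^ (m1 + m2) * (q n 12 * q n (-(A1 + A2 + 13))) by ring, q_mul]
          congr 2
          ring
      _ < _ := mul_lt_mul_of_pos_left (q_lt hn (by linarith)) hP
  linarith

theorem passage_good {n : ℕ} (hn : 2 ≤ n) {K : ℝ} (hK : Up n K) {N : ℕ} (hN : N ≤ n) {T : ℤ}
    (hT : 0 ≤ T) {A : ℝ}
    (h : mu ^ N * q n (-A) ≤ ((fs (fun w => Saw w ∧ T ≤ dx w) N).card : ℝ)) :
    ∃ m ≤ N, ∃ y : ℤ, mu ^ m * q n (-(A + K + 16)) ≤ a m T y := by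
  by_contra hcon
  push Not at hcon
  have hmu := mu_pos
  have hcard := passage_card N T hT
  have hcard' : ((fs (fun w => Saw w ∧ T ≤ dx w) N).card : ℝ) ≤
      ∑ p ∈ range (N + 1) ×ˢ Icc (-(N : ℤ)) N, (a p.1 T p.2 : ℝ) * c (N - p.1) := by
    exact_mod_cast hcard
  have hterm : ∀ p ∈ range (N + 1) ×ˢ Icc (-(N : ℤ)) N,
      (a p.1 T p.2 : ℝ) * c (N - p.1) ≤ mu ^ N * q n (-(A + 16)) := by
    intro p hp
    rw [Finset.mem_product, Finset.mem_range] at hp
    have e1 := (hcon p.1 (by omega) p.2).le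
    have e2 := hK (N - p.1) (by omega)
    have hp1 : (0 : ℝ) < mu ^ p.1 := pow_pos hmu _
    have hp2 : (0 : ℝ) < mu ^ (N - p.1) := pow_pos hmu _
    have g1 := q_pos n (-(A + K + 16))
    have g2 := q_pos n K
    calc (a p.1 T p.2 : ℝ) * c (N - p.1)
        ≤ (mu ^ p.1 * q n (-(A + K + 16))) * (mu ^ (N - p.1) * q n K) := by gcongr
      _ = (mu ^ p.1 * mu ^ (N - p.1)) * (q n (-(A + K + 16)) * q n K) := by ring
      _ = _ := by
          rw [← pow_add, q_mul]
          congr 2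
          · omega
          · ring
  have hsum := Finset.sum_le_card_nsmul _ _ _ hterm
  rw [Finset.card_product, Finset.card_range, Int.card_Icc, nsmul_eq_mul] at hsum
  have hnum : (((N + 1) * ((N : ℤ) + 1 - -(N : ℤ)).toNat : ℕ) : ℝ) ≤ q n 15 := by
    have h3 := pow_le_q hn 5
    norm_num at h3
    refine le_trans ?_ h3
    have e : ((N : ℤ) + 1 - -(N : ℤ)).toNat = 2 * N + 1 := by omega
    rw [e]
    have h4 : (N + 1) * (2 * N + 1) ≤ n ^ 5 := by
      calc (N + 1) * (2 * N + 1) ≤ (n + 1) * (2 * n + 1) := Nat.mul_le_mul (by omega) (by omega)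
        _ ≤ n ^ 2 * n ^ 3 := by
            have h5 : n + 1 ≤ n ^ 2 := by nlinarith
            have h6 : 2 * n + 1 ≤ n ^ 3 := by nlinarith [Nat.mul_le_mul hn hn]
            exact Nat.mul_le_mul h5 h6
        _ = n ^ 5 := by ring
    exact_mod_cast h4
  have hP : 0 < mu ^ N := pow_pos hmu _
  have hup : (((N + 1) * ((N : ℤ) + 1 - -(N : ℤ)).toNat : ℕ) : ℝ) *
      (mu ^ N * q n (-(A + 16))) < mu ^ N * q n (-A) := by
    have g1 := q_pos n (-(A + 16))
    calc _ ≤ q n 15 * (mu ^ N * q n (-(A + 16))) := by gcongr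
      _ = mu ^ N * q n (-A - 1) := by
          rw [show q n 15 * (mu ^ N * q n (-(A + 16))) =
            mu ^ N * (q n 15 * q n (-(A + 16))) by ring, q_mul]
          congr 2
          ring
      _ < _ := mul_lt_mul_of_pos_left (q_lt hn (by linarith)) hP
  linarith

/-- words of at most `N` steps reach every line at distance at most `Tm` -/
def Reach (n N : ℕ) (Tm : ℤ) (A : ℝ) : Prop :=
  ∀ T : ℤ, 1 ≤ T → T ≤ Tm → ∃ l ≤ N,
    mu ^ l * q n (-A) ≤ ((fs (fun w => Saw w ∧ T ≤ dx w) l).card : ℝ)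

theorem a_zero : 1 ≤ a 0 0 0 := by
  unfold a
  rw [Nat.succ_le_iff, Finset.card_pos]
  exact ⟨[], mem_fs.2 ⟨⟨saw_nil, rfl, rfl⟩, rfl⟩⟩

theorem a_one : 1 ≤ a 1 1 0 := by
  unfold a
  rw [Nat.succ_le_iff, Finset.card_pos]
  refine ⟨[St.E], mem_fs.2 ⟨⟨?_, rfl, rfl⟩, rfl⟩⟩
  rw [saw_iff']
  intro i j hij hj he
  simp only [List.length_cons, List.length_nil] at hj
  have h1 : i = 0 := by omega
  have h2 : j = 1 := by omega
  subst h1 h2
  simp [path] at he

theorem even_good {n : ℕ} (hn : 2 ≤ n) {K A : ℝ} (hK0 : 0 ≤ K) (hA : 0 ≤ A) (hK : Up n K) {N : ℕ}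
    (hN : N ≤ n) {Tm : ℤ} (hR : Reach n N Tm A) {T : ℤ} (hT0 : 0 ≤ T) (hT : T ≤ Tm) :
    ∃ m ≤ 2 * N, mu ^ m * q n (-(2 * A + 4 * K + 45)) ≤ a m (2 * T) 0 := by
  rcases hT0.eq_or_lt with h0 | h0
  · refine ⟨0, Nat.zero_le _, ?_⟩
    rw [← h0, mul_zero]
    have h1 : q n (-(2 * A + 4 * K + 45)) ≤ q n 0 := q_mono hn (by linarith)
    have h2 : q n 0 = 1 := by simp [q]
    have h3 : (1 : ℝ) ≤ a 0 0 0 := by exact_mod_cast a_zero
    rw [pow_zero]
    linarith
  · obtain ⟨l, hl, h1⟩ := hR T (by omega) hT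
    obtain ⟨m, hm, y, h2⟩ := passage_good hn hK (hl.trans hN) hT0 h1
    have h3 : mu ^ m * q n (-(A + K + 16)) ≤ a m T (-y) := by rw [a_ng]; exact h2
    obtain ⟨m', hm', h4⟩ := glue_good hn hK (hm.trans (hl.trans hN)) (hm.trans (hl.trans hN)) h2 h3
    refine ⟨m', by omega, ?_⟩
    rw [show T + T = 2 * T by ring, add_neg_cancel] at h4
    refine le_trans (le_of_eq ?_) h4
    congr 2
    ring

/-- **All displacements.** -/
theorem all_good {n : ℕ} (hn : 2 ≤ n) {K A : ℝ} (hK0 : 0 ≤ K) (hA : 0 ≤ A) (hK : Up n K) {N : ℕ}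
    (hN : 2 * N + 1 ≤ n) {Tm : ℤ} (hR : Reach n N Tm A) {x y : ℤ} (hx : |x| ≤ 2 * Tm + 1)
    (hy : |y| ≤ 2 * Tm + 1) :
    ∃ m ≤ 4 * N + 2, mu ^ m * q n (-(4 * A + 16 * K + 141)) ≤ a m x y := by
  have hmu := one_le_mu
  -- coordinates of either parity
  have key : ∀ z : ℤ, 0 ≤ z → z ≤ 2 * Tm + 1 → ∃ m ≤ 2 * N + 1,
      mu ^ m * q n (-(2 * A + 7 * K + 64)) ≤ a m z 0 := by
    intro z hz0 hz
    obtain ⟨m, hm, h1⟩ := even_good hn hK0 hA hK (by omega) hR (T := z / 2) (by omega) (by omega)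
    rcases Int.emod_two_eq_zero_or_one z with hp | hp
    · refine ⟨m, by omega, ?_⟩
      have e : 2 * (z / 2) = z := by omega
      rw [e] at h1
      refine le_trans (mul_le_mul_of_nonneg_left (q_mono hn (by linarith))
        (pow_nonneg mu_pos.le _)) h1
    · have e : 2 * (z / 2) + 1 = z := by omega
      have h2 : mu ^ 1 * q n (-(K + 6)) ≤ a 1 1 0 := by
        have h3 : mu ^ 1 ≤ q n (K + 6) := by
          have h4 := mu_pow_le 1
          rw [← c_eq] at h4
          have h5 : (c 1 : ℝ) ≤ 4 := by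
            have : c 1 ≤ 4 := by
              unfold c
              calc (fs Saw 1).card ≤ (univ.image (fun s : St => [s])).card := by
                    apply Finset.card_le_card
                    intro w hw
                    rw [mem_fs] at hw
                    obtain ⟨s, rfl⟩ := List.length_eq_one_iff.1 hw.2
                    exact Finset.mem_image_of_mem _ (mem_univ s)
                _ ≤ (univ : Finset St).card := Finset.card_image_le
                _ = 4 := rfl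
            exact_mod_cast this
          have h6 : (4 : ℝ) ≤ q n 6 := by
            have := pow_le_q hn 2
            have h4 : (2 : ℝ) ≤ n := by exact_mod_cast hn
            norm_num at this
            nlinarith
          have h7 : q n 6 ≤ q n (K + 6) := q_mono hn (by linarith)
          linarith
        have h4 : (1 : ℝ) ≤ a 1 1 0 := by exact_mod_cast a_one
        have h5 := q_pos n (-(K + 6))
        calc mu ^ 1 * q n (-(K + 6)) ≤ q n (K + 6) * q n (-(K + 6)) := by gcongr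
          _ = 1 := by rw [q_mul, add_neg_cancel]; simp [q]
          _ ≤ _ := h4
      obtain ⟨m', hm', h3⟩ := glue_good hn hK (by omega : m ≤ n) (by omega : 1 ≤ n) h1 h2
      rw [e, add_zero] at h3
      refine ⟨m', by omega, ?_⟩
      refine le_trans (mul_le_mul_of_nonneg_left (q_mono hn ?_) (pow_nonneg mu_pos.le _)) h3
      linarith
  obtain ⟨m1, hm1, h1⟩ := key |x| (abs_nonneg x) hx
  obtain ⟨m2, hm2, h2⟩ := key |y| (abs_nonneg y) hy
  rw [a_sw] at h2
  obtain ⟨m, hm, h3⟩ := glue_good hn hK (by omega : m1 ≤ n) (by omega : m2 ≤ n) h1 h2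
  rw [add_zero, zero_add, a_abs] at h3
  refine ⟨m, by omega, ?_⟩
  refine le_trans (le_of_eq ?_) h3
  congr 2
  ring

end Pool.Agent.TH795.EP
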