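import Pool.Agent.TH795.EP.Main

/-!
Transfer to walks, and quasi-supermultiplicativity of the two-point function.
-/

set_option autoImplicit false

namespace Pool.Agent.TH795.EP

open H981 Finset

/-- the walk of a word -/
def ew (n : ℕ) (w : List St) : Fin (n + 1) → ℤ × ℤ := fun i => path w i

theorem ew_injOn (n : ℕ) {w w' : List St} (hw : w.length = n) (hw' : w'.length = n)
    (h : ew n w = ew n w') : w = w' :=
  path_injective hw hw' fun i => congrFun h i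

theorem ew_saw (n : ℕ) {w : List St} (hw : w.length = n) (hs : Saw w) : H981.IsSAW n (ew n w) := by
  refine ⟨by simp [ew, path], ?_, (saw_iff n hw).mp hs⟩
  intro i
  have hi : (i : ℕ) < w.length := by rw [hw]; exact i.2
  have h2 := path_succ hi
  simp only [ew, Fin.val_succ, Fin.val_castSucc]
  rw [h2.1, h2.2]
  cases w[(i : ℕ)] <;> simp

theorem ew_last (n : ℕ) {w : List St} (hw : w.length = n) :
    ew n w (Fin.last n) = (dx w, dy w) := by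
  simp only [ew, Fin.val_last]
  rw [← hw, path_len]

theorem exists_w (n : ℕ) {ω : Fin (n + 1) → ℤ × ℤ} (h : H981.IsSAW n ω) :
    ∃ w, w ∈ fs Saw n ∧ ew n w = ω := by
  obtain ⟨w, hw, h2⟩ := exists_word' n ω h
  have e : ew n w = ω := funext h2
  refine ⟨w, mem_fs.2 ⟨?_, hw⟩, e⟩
  rw [saw_iff n hw]
  have : (fun i : Fin (n + 1) => path w i) = ω := e
  rw [this]
  exact h.2.2

theorem image_eq (n : ℕ) (P : List St → Prop) (Q : (Fin (n + 1) → ℤ × ℤ) → Prop)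
    (h : ∀ w, w.length = n → (P w ↔ Q (ew n w))) :
    {ω | H981.IsSAW n ω ∧ Q ω} = ew n '' (fs (fun w => Saw w ∧ P w) n : Set (List St)) := by
  ext ω
  constructor
  · rintro ⟨h1, h2⟩
    obtain ⟨w, hw, rfl⟩ := exists_w n h1
    rw [mem_fs] at hw
    refine ⟨w, ?_, rfl⟩
    rw [Finset.mem_coe, mem_fs]
    exact ⟨⟨hw.1, (h w hw.2).2 h2⟩, hw.2⟩
  · rintro ⟨w, hw, rfl⟩
    rw [Finset.mem_coe, mem_fs] at hw
    exact ⟨ew_saw n hw.2 hw.1.1, (h w hw.2).1 hw.1.2⟩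

theorem ncard_eq (n : ℕ) (P : List St → Prop) (Q : (Fin (n + 1) → ℤ × ℤ) → Prop)
    (h : ∀ w, w.length = n → (P w ↔ Q (ew n w))) :
    Nat.card {ω // H981.IsSAW n ω ∧ Q ω} = (fs (fun w => Saw w ∧ P w) n).card := by
  have h1 : Nat.card {ω // H981.IsSAW n ω ∧ Q ω} = {ω | H981.IsSAW n ω ∧ Q ω}.ncard :=
    Nat.card_coe_set_eq _
  rw [h1, image_eq n P Q h, Set.InjOn.ncard_image, Set.ncard_coe_finset]
  intro w hw w' hw' he
  rw [Finset.mem_coe, mem_fs] at hw hw'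
  exact ew_injOn n hw.2 hw'.2 he

theorem card_walks (n : ℕ) : Nat.card {ω // H981.IsSAW n ω} = c n := by
  have h := ncard_eq n (fun _ => True) (fun _ => True) (fun _ _ => Iff.rfl)
  simp only [and_true] at h
  exact h

theorem card_walks_to (n : ℕ) (x : ℤ × ℤ) :
    Nat.card {ω // H981.IsSAW n ω ∧ ω (Fin.last n) = x} = a n x.1 x.2 := by
  unfold a
  apply ncard_eq n (fun w => dx w = x.1 ∧ dy w = x.2) (fun ω => ω (Fin.last n) = x)
  intro w hw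
  rw [ew_last n hw]
  constructor
  · rintro ⟨h1, h2⟩; exact Prod.ext h1 h2
  · intro h
    exact ⟨congrArg Prod.fst h, congrArg Prod.snd h⟩

theorem finsum_walks (n : ℕ) (F : (Fin (n + 1) → ℤ × ℤ) → ℝ) :
    ∑ᶠ ω ∈ {ω | H981.IsSAW n ω}, F ω = ∑ w ∈ fs Saw n, F (ew n w) := by
  rw [← finsum_mem_coe_finset]
  symm
  apply finsum_mem_eq_of_bijOn (ew n)
  · refine ⟨?_, ?_, ?_⟩
    · intro w hw
      rw [Finset.mem_coe, mem_fs] at hw
      exact ew_saw n hw.2 hw.1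
    · intro w hw w' hw' he
      rw [Finset.mem_coe, mem_fs] at hw hw'
      exact ew_injOn n hw.2 hw'.2 he
    · intro ω hω
      obtain ⟨w, hw, he⟩ := exists_w n hω
      exact ⟨w, hw, he⟩
  · intro w _
    rfl

theorem ms_walks (n : ℕ) : (∑ᶠ ω ∈ {ω | H981.IsSAW n ω},
    (((ω (Fin.last n)).1 : ℝ) ^ 2 + ((ω (Fin.last n)).2 : ℝ) ^ 2)) /
      (Nat.card {ω // H981.IsSAW n ω} : ℝ) = ms n := by
  rw [finsum_walks n (fun ω => ((ω (Fin.last n)).1 : ℝ) ^ 2 + ((ω (Fin.last n)).2 : ℝ) ^ 2),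
    card_walks]
  unfold ms
  congr 1
  apply Finset.sum_congr rfl
  intro w hw
  rw [mem_fs] at hw
  rw [ew_last n hw.2]
  unfold nq
  push_cast
  ring

/-! ### the truncated two-point function -/

/-- `∑_{m ≤ N} c_m(x) μ^(-m)` -/
noncomputable def G (N : ℕ) (x y : ℤ) : ℝ := ∑ m ∈ range (N + 1), (a m x y : ℝ) / mu ^ m

theorem G_nonneg (N : ℕ) (x y : ℤ) : 0 ≤ G N x y :=
  Finset.sum_nonneg fun _ _ => div_nonneg (Nat.cast_nonneg _) (pow_nonneg mu_pos.le _)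

theorem le_G {N m : ℕ} (h : m ≤ N) (x y : ℤ) : (a m x y : ℝ) / mu ^ m ≤ G N x y :=
  Finset.single_le_sum (f := fun m => (a m x y : ℝ) / mu ^ m)
    (fun _ _ => div_nonneg (Nat.cast_nonneg _) (pow_nonneg mu_pos.le _))
    (by rw [Finset.mem_range]; omega)

theorem pair_bound {N : ℕ} {K : ℝ} (hK : Up N K) {m1 m2 : ℕ} (h1 : m1 ≤ N) (h2 : m2 ≤ N)
    (x1 y1 x2 y2 : ℤ) : ((a m1 x1 y1 : ℝ) / mu ^ m1) * ((a m2 x2 y2 : ℝ) / mu ^ m2) ≤
      ((N + 1 : ℕ) : ℝ) ^ 2 * (q N (2 * K) * G (2 * N) (x1 + x2) (y1 + y2)) := by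
  have hmu := mu_pos
  have hcard : ((a m1 x1 y1 : ℝ)) * a m2 x2 y2 ≤ ∑ p ∈ range (m1 + 1) ×ˢ range (m2 + 1),
      (a (p.1 + (m2 - p.2)) (x1 + x2) (y1 + y2) : ℝ) * (c (m1 - p.1) * c p.2) := by
    exact_mod_cast glue_card m1 m2 x1 y1 x2 y2
  have hG := G_nonneg (2 * N) (x1 + x2) (y1 + y2)
  have hq := q_pos N (2 * K)
  have hterm : ∀ p ∈ range (m1 + 1) ×ˢ range (m2 + 1),
      (a (p.1 + (m2 - p.2)) (x1 + x2) (y1 + y2) : ℝ) * (c (m1 - p.1) * c p.2) ≤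
        mu ^ (m1 + m2) * (q N (2 * K) * G (2 * N) (x1 + x2) (y1 + y2)) := by
    intro p hp
    rw [Finset.mem_product, Finset.mem_range, Finset.mem_range] at hp
    have e1 := le_G (N := 2 * N) (m := p.1 + (m2 - p.2)) (by omega) (x1 + x2) (y1 + y2)
    have hp1 : (0 : ℝ) < mu ^ (p.1 + (m2 - p.2)) := pow_pos hmu _
    rw [div_le_iff₀ hp1] at e1
    have e2 := hK (m1 - p.1) (by omega)
    have e3 := hK p.2 (by omega)
    have hp2 : (0 : ℝ) < mu ^ (m1 - p.1) := pow_pos hmu _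
    have hp3 : (0 : ℝ) < mu ^ p.2 := pow_pos hmu _
    have g2 := q_pos N K
    calc (a (p.1 + (m2 - p.2)) (x1 + x2) (y1 + y2) : ℝ) * (c (m1 - p.1) * c p.2)
        ≤ (G (2 * N) (x1 + x2) (y1 + y2) * mu ^ (p.1 + (m2 - p.2))) *
          ((mu ^ (m1 - p.1) * q N K) * (mu ^ p.2 * q N K)) := by
          gcongr
      _ = (mu ^ (p.1 + (m2 - p.2)) * mu ^ (m1 - p.1) * mu ^ p.2) *
          ((q N K * q N K) * G (2 * N) (x1 + x2) (y1 + y2)) := by ring
      _ = _ := by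
          rw [← pow_add, ← pow_add, q_mul]
          congr 2
          · omega
          · congr 2; ring
  have hsum := Finset.sum_le_card_nsmul _ _ _ hterm
  rw [Finset.card_product, Finset.card_range, Finset.card_range, nsmul_eq_mul] at hsum
  have hnum : (((m1 + 1) * (m2 + 1) : ℕ) : ℝ) ≤ ((N + 1 : ℕ) : ℝ) ^ 2 := by
    have : (m1 + 1) * (m2 + 1) ≤ (N + 1) ^ 2 := by
      rw [sq]
      exact Nat.mul_le_mul (by omega) (by omega)
    exact_mod_cast this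
  have hP : 0 < mu ^ (m1 + m2) := pow_pos hmu _
  rw [div_mul_div_comm, ← pow_add, div_le_iff₀ hP]
  have hx : 0 ≤ mu ^ (m1 + m2) * (q N (2 * K) * G (2 * N) (x1 + x2) (y1 + y2)) := by positivity
  calc ((a m1 x1 y1 : ℝ)) * a m2 x2 y2 ≤ _ := hcard.trans hsum
    _ ≤ ((N + 1 : ℕ) : ℝ) ^ 2 *
        (mu ^ (m1 + m2) * (q N (2 * K) * G (2 * N) (x1 + x2) (y1 + y2))) :=
        mul_le_mul_of_nonneg_right hnum hx
    _ = _ := by ring

/-- **Quasi-supermultiplicativity.** -/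
theorem quasi_super : ∃ K : ℝ, 0 ≤ K ∧ ∀ N : ℕ, 2 ≤ N → ∀ x1 y1 x2 y2 : ℤ,
    G N x1 y1 * G N x2 y2 ≤ q N K * G (2 * N) (x1 + x2) (y1 + y2) := by
  obtain ⟨K, hK0, hup, -⟩ := exists_K
  refine ⟨24 + 2 * K, by positivity, ?_⟩
  intro N hN x1 y1 x2 y2
  have hK : Up N K := hup N hN
  have hG := G_nonneg (2 * N) (x1 + x2) (y1 + y2)
  have hq := q_pos N (2 * K)
  have h1 : G N x1 y1 * G N x2 y2 ≤ ∑ _m1 ∈ range (N + 1), ∑ _m2 ∈ range (N + 1),
      ((N + 1 : ℕ) : ℝ) ^ 2 * (q N (2 * K) * G (2 * N) (x1 + x2) (y1 + y2)) := by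
    unfold G
    rw [Finset.sum_mul_sum]
    apply Finset.sum_le_sum
    intro m1 hm1
    apply Finset.sum_le_sum
    intro m2 hm2
    rw [Finset.mem_range] at hm1 hm2
    exact pair_bound hK (by omega) (by omega) x1 y1 x2 y2
  rw [Finset.sum_const, Finset.sum_const, Finset.card_range, nsmul_eq_mul, nsmul_eq_mul] at h1
  have h2 : ((N + 1 : ℕ) : ℝ) ^ 4 ≤ q N 24 := by
    have h3 := pow_le_q hN 8
    norm_num at h3
    refine le_trans ?_ h3
    have h4 : (N + 1) ^ 4 ≤ N ^ 8 := by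
      calc (N + 1) ^ 4 ≤ (N ^ 2) ^ 4 := Nat.pow_le_pow_left (by nlinarith) 4
        _ = N ^ 8 := by ring
    exact_mod_cast h4
  calc G N x1 y1 * G N x2 y2 ≤ _ := h1
    _ = ((N + 1 : ℕ) : ℝ) ^ 4 * (q N (2 * K) * G (2 * N) (x1 + x2) (y1 + y2)) := by ring
    _ ≤ q N 24 * (q N (2 * K) * G (2 * N) (x1 + x2) (y1 + y2)) :=
        mul_le_mul_of_nonneg_right h2 (by positivity)
    _ = (q N 24 * q N (2 * K)) * G (2 * N) (x1 + x2) (y1 + y2) := by ring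
    _ = _ := by rw [q_mul]

end Pool.Agent.TH795.EP
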