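import Pool.Agent.TH795.EP.Est

/-!
The end point of the planar self-avoiding walk: pointwise lower bound on the scale of the root mean
square displacement, and the critical two-point function.
-/

set_option autoImplicit false

namespace Pool.Agent.TH795.EP

open H981 Finset

theorem q_zero (n : ℕ) : q n 0 = 1 := by simp [q]

theorem q_cancel (n : ℕ) (A : ℝ) : q n A * q n (-A) = 1 := by
  rw [q_mul, add_neg_cancel, q_zero]

theorem abs_add_abs_le (w : List St) : |dx w| + |dy w| ≤ w.length := by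
  induction w with
  | nil => simp
  | cons s w ih =>
    rw [dx_cons, dy_cons, List.length_cons]
    push_cast
    have h1 := abs_add_le s.x (dx w)
    have h2 := abs_add_le s.y (dy w)
    have h3 : |s.x| + |s.y| = 1 := by cases s <;> simp
    omega

theorem nq_le (w : List St) : nq w ≤ (w.length : ℤ) ^ 2 := by
  have h := abs_add_abs_le w
  have h1 := abs_nonneg (dx w)
  have h2 := abs_nonneg (dy w)
  unfold nq
  rw [← sq_abs (dx w), ← sq_abs (dy w)]
  nlinarith [mul_nonneg h1 h2]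

theorem one_le_nq {w : List St} (h : Saw w) (hw : w ≠ []) : 1 ≤ nq w := by
  unfold nq
  by_contra hcon
  have h1 : dx w = 0 := by nlinarith [sq_nonneg (dx w), sq_nonneg (dy w)]
  have h2 : dy w = 0 := by nlinarith [sq_nonneg (dx w), sq_nonneg (dy w)]
  exact hw (h w (List.infix_refl w) h1 h2)

/-- mean square displacement -/
noncomputable def ms (n : ℕ) : ℝ := (∑ w ∈ fs Saw n, (nq w : ℝ)) / c n

theorem c_pos (n : ℕ) : (0 : ℝ) < c n := by
  rw [c_eq]
  linarith [one_le_cr' n]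

theorem ms_le (n : ℕ) : ms n ≤ (n : ℝ) ^ 2 := by
  unfold ms
  rw [div_le_iff₀ (c_pos n)]
  calc (∑ w ∈ fs Saw n, (nq w : ℝ)) ≤ ∑ _w ∈ fs Saw n, (n : ℝ) ^ 2 := by
        apply Finset.sum_le_sum
        intro w hw
        rw [mem_fs] at hw
        have := nq_le w
        rw [hw.2] at this
        exact_mod_cast this
    _ = _ := by
        rw [Finset.sum_const, nsmul_eq_mul]
        unfold c
        ring

theorem one_le_ms {n : ℕ} (hn : 1 ≤ n) : 1 ≤ ms n := by
  unfold ms
  rw [le_div_iff₀ (c_pos n), one_mul]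
  calc (c n : ℝ) = ∑ _w ∈ fs Saw n, (1 : ℝ) := by
        rw [Finset.sum_const, nsmul_eq_mul, mul_one]; rfl
    _ ≤ _ := by
        apply Finset.sum_le_sum
        intro w hw
        rw [mem_fs] at hw
        have := one_le_nq hw.1 (by rintro rfl; simp at hw; omega)
        exact_mod_cast this

theorem mass {n : ℕ} (hn : 2 ≤ n) :
    mu ^ n * q n (-9) ≤ ((fs (fun w => Saw w ∧ ms n ≤ 4 * nq w) n).card : ℝ) := by
  classical
  have hc := c_pos n
  have h1 := one_le_ms (by omega : 1 ≤ n)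
  have hn' : (2 : ℝ) ≤ n := by exact_mod_cast hn
  have hsum : ms n * c n ≤ c n * (ms n / 4) +
      (n : ℝ) ^ 2 * ((fs (fun w => Saw w ∧ ms n ≤ 4 * nq w) n).card : ℝ) := by
    have e : ms n * c n = ∑ w ∈ fs Saw n, (nq w : ℝ) := by
      unfold ms
      field_simp
    rw [e]
    have hfil : fs (fun w => Saw w ∧ ms n ≤ 4 * nq w) n =
        (fs Saw n).filter (fun w => ms n ≤ 4 * nq w) := by
      ext w
      rw [Finset.mem_filter, mem_fs, mem_fs]
      tauto
    rw [hfil]
    calc (∑ w ∈ fs Saw n, (nq w : ℝ))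
        ≤ ∑ w ∈ fs Saw n, (ms n / 4 + (if ms n ≤ 4 * nq w then (n : ℝ) ^ 2 else 0)) := by
          apply Finset.sum_le_sum
          intro w hw
          rw [mem_fs] at hw
          split_ifs with h
          · have := nq_le w
            rw [hw.2] at this
            have h2 : (nq w : ℝ) ≤ (n : ℝ) ^ 2 := by exact_mod_cast this
            linarith
          · push Not at h
            linarith
      _ = _ := by
          rw [Finset.sum_add_distrib, Finset.sum_const, nsmul_eq_mul, ← Finset.sum_filter,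
            Finset.sum_const, nsmul_eq_mul]
          unfold c
          ring
  set P : ℝ := ((fs (fun w => Saw w ∧ ms n ≤ 4 * nq w) n).card : ℝ) with hP
  have hP0 : 0 ≤ P := Nat.cast_nonneg _
  have h2 : (c n : ℝ) ≤ (n : ℝ) ^ 3 * P := by
    have h3 : 3 / 4 * (c n : ℝ) ≤ (n : ℝ) ^ 2 * P := by nlinarith
    have h4 : 0 ≤ (n : ℝ) ^ 2 * P := by positivity
    nlinarith
  have h3 := pow_le_q hn 3
  norm_num at h3
  have h4 : (c n : ℝ) ≤ q n 9 * P := h2.trans (mul_le_mul_of_nonneg_right h3 hP0)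
  have h5 := mu_pow_le n
  rw [← c_eq] at h5
  have h6 := q_pos n (-9)
  calc mu ^ n * q n (-9) ≤ (q n 9 * P) * q n (-9) := by
        apply mul_le_mul_of_nonneg_right (h5.trans h4) h6.le
    _ = (q n 9 * q n (-9)) * P := by ring
    _ = P := by rw [q_cancel, one_mul]

theorem dx_seg (k N : ℕ) (w : List St) :
    dx w = (∑ j ∈ range k, dx ((w.drop (j * N)).take N)) + dx (w.drop (k * N)) ∧
    dy w = (∑ j ∈ range k, dy ((w.drop (j * N)).take N)) + dy (w.drop (k * N)) := by
  induction k with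
  | zero => simp
  | succ k ih =>
    have e : w.drop (k * N) = (w.drop (k * N)).take N ++ w.drop ((k + 1) * N) := by
      rw [show (k + 1) * N = k * N + N by ring, ← List.drop_drop, List.take_append_drop]
    have e1 := congrArg dx e
    have e2 := congrArg dy e
    rw [dx_append] at e1
    rw [dy_append] at e2
    rw [Finset.sum_range_succ, Finset.sum_range_succ]
    constructor
    · rw [ih.1]; linarith
    · rw [ih.2]; linarith

theorem nq_seg (k N : ℕ) (w : List St) :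
    nq w ≤ 2 * k * (∑ j ∈ range k, nq ((w.drop (j * N)).take N)) + 2 * nq (w.drop (k * N)) := by
  obtain ⟨h1, h2⟩ := dx_seg k N w
  have h3 := sq_sum_le_card_mul_sum_sq (s := range k)
    (f := fun j => dx ((w.drop (j * N)).take N))
  have h4 := sq_sum_le_card_mul_sum_sq (s := range k)
    (f := fun j => dy ((w.drop (j * N)).take N))
  rw [Finset.card_range] at h3 h4
  unfold nq
  rw [Finset.sum_add_distrib]
  set X := ∑ j ∈ range k, dx ((w.drop (j * N)).take N)
  set Y := ∑ j ∈ range k, dy ((w.drop (j * N)).take N)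
  set SX := ∑ j ∈ range k, dx ((w.drop (j * N)).take N) ^ 2
  set SY := ∑ j ∈ range k, dy ((w.drop (j * N)).take N) ^ 2
  rw [h1, h2]
  nlinarith [sq_nonneg (X - dx (w.drop (k * N))), sq_nonneg (Y - dy (w.drop (k * N)))]

theorem four_cast (u v : ℕ) (h : u ≤ 4 * v) : (u : ℝ) ≤ 4 * (v : ℝ) := by exact_mod_cast h

theorem term_bound {n : ℕ} {K : ℝ} (hK : Up n K) {k1 k2 N : ℕ} (h : k1 + N + k2 = n) {V : ℝ}
    (hV : 0 ≤ V) : (c k1 : ℝ) * (V * c k2) ≤ V * (mu ^ (n - N) * q n (2 * K)) := by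
  have hmu := mu_pos
  have e2 := hK k1 (by omega)
  have e3 := hK k2 (by omega)
  have hp1 : (0 : ℝ) < mu ^ k1 := pow_pos hmu _
  have hp2 : (0 : ℝ) < mu ^ k2 := pow_pos hmu _
  have g2 := q_pos n K
  calc (c k1 : ℝ) * (V * c k2)
      ≤ (mu ^ k1 * q n K) * (V * (mu ^ k2 * q n K)) := by gcongr
    _ = V * ((mu ^ k1 * mu ^ k2) * (q n K * q n K)) := by ring
    _ = _ := by
        rw [← pow_add, q_mul]
        congr 3
        · omega
        · ring

theorem reach_ms {n : ℕ} (hn : 2 ≤ n) {K : ℝ} (hK : Up n K) {Tm : ℤ}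
    (hTm : 10000 * (Tm : ℝ) ^ 2 ≤ ms n) : Reach n (n / 12) Tm (27 + 2 * K) := by
  intro T hT1 hT
  refine ⟨n / 12, le_rfl, ?_⟩
  have hmu := mu_pos
  have hTR : (1 : ℝ) ≤ T := by exact_mod_cast hT1
  have hTT : (T : ℝ) ≤ Tm := by exact_mod_cast hT
  have hms : 10000 * (T : ℝ) ^ 2 ≤ ms n := by nlinarith
  have hms1 : 10000 ≤ ms n := by nlinarith
  obtain ⟨N, hN⟩ : ∃ N, N = n / 12 := ⟨_, rfl⟩
  obtain ⟨r, hr⟩ : ∃ r, r = n % 12 := ⟨_, rfl⟩
  have hr12 : r < 12 := by omega
  have hnN : n = 12 * N + r := by omega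
  rw [← hN]
  obtain ⟨ρ, hρ⟩ : ∃ ρ : ℤ, ρ = ⌊ms n / 2500⌋ := ⟨_, rfl⟩
  have hρ1 : (ρ : ℝ) ≤ ms n / 2500 := by rw [hρ]; exact Int.floor_le _
  have hρ2 : ms n / 2500 < ρ + 1 := by rw [hρ]; exact Int.lt_floor_add_one _
  have hseg := seg_card 12 N r ρ (fun w => ms n ≤ 4 * nq w) (by
    intro w _ hwl hw
    by_contra hcon
    push Not at hcon
    have h1 := nq_seg 12 N w
    have h2 : ∑ j ∈ range 12, nq ((w.drop (j * N)).take N) ≤ ∑ _j ∈ range 12, (ρ - 1) := by
      apply Finset.sum_le_sum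
      intro j hj
      rw [Finset.mem_range] at hj
      have := hcon j hj
      omega
    rw [Finset.sum_const, Finset.card_range, nsmul_eq_mul] at h2
    have h3 := nq_le (w.drop (12 * N))
    have h4 : (w.drop (12 * N)).length = r := by rw [List.length_drop]; omega
    rw [h4] at h3
    have h5 : (r : ℤ) ^ 2 ≤ 121 := by
      have : (r : ℤ) ≤ 11 := by omega
      have h0 : (0 : ℤ) ≤ r := by omega
      nlinarith
    have h6 : nq w ≤ 288 * (ρ - 1) + 242 := by
      push_cast at h1 h2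
      nlinarith
    have h7 : (nq w : ℝ) ≤ 288 * (ρ - 1) + 242 := by exact_mod_cast h6
    linarith)
  rw [← hnN] at hseg
  have hmass := mass hn
  set V : ℕ := (fs (fun w => Saw w ∧ ρ ≤ nq w) N).card with hV
  have hV1 : mu ^ N * q n (-(21 + 2 * K)) ≤ (V : ℝ) := by
    have h1 : ((fs (fun w => Saw w ∧ ms n ≤ 4 * nq w) n).card : ℝ) ≤
        ∑ j ∈ range 12, (c (j * N) : ℝ) * (V * c (n - (j * N + N))) := by
      exact_mod_cast hseg
    have h2 : ∑ j ∈ range 12, (c (j * N) : ℝ) * (V * c (n - (j * N + N))) ≤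
        ∑ _j ∈ range 12, V * (mu ^ (n - N) * q n (2 * K)) := by
      apply Finset.sum_le_sum
      intro j hj
      rw [Finset.mem_range] at hj
      have hjN : j * N + N ≤ 12 * N := by
        have : (j + 1) * N ≤ 12 * N := Nat.mul_le_mul_right N hj
        linarith [this, Nat.succ_mul j N]
      exact term_bound hK (by omega) (Nat.cast_nonneg _)
    rw [Finset.sum_const, Finset.card_range, nsmul_eq_mul] at h2
    push_cast at h2
    have h3 : mu ^ n * q n (-9) ≤ 12 * (V * (mu ^ (n - N) * q n (2 * K))) :=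
      hmass.trans (h1.trans h2)
    have h4 : mu ^ n = mu ^ N * mu ^ (n - N) := by
      rw [← pow_add]; congr 1; omega
    have h5 : (12 : ℝ) ≤ q n 12 := by
      have := pow_le_q hn 4
      norm_num at this
      have h6 : (2 : ℝ) ≤ n := by exact_mod_cast hn
      have h7 : (16 : ℝ) ≤ (n : ℝ) ^ 4 := by
        calc (16 : ℝ) = 2 ^ 4 := by norm_num
          _ ≤ _ := by gcongr
      linarith
    have hp : (0 : ℝ) < mu ^ (n - N) := pow_pos hmu _
    have h6 : mu ^ N * q n (-9) ≤ q n 12 * (V * q n (2 * K)) := by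
      rw [h4] at h3
      have h7 : (mu ^ N * q n (-9)) * mu ^ (n - N) ≤ (q n 12 * (V * q n (2 * K))) * mu ^ (n - N) := by
        have g := q_pos n (2 * K)
        have hV0 : (0 : ℝ) ≤ V := Nat.cast_nonneg _
        have h8 : (12 : ℝ) * (V * (mu ^ (n - N) * q n (2 * K))) ≤
            q n 12 * (V * (mu ^ (n - N) * q n (2 * K))) :=
          mul_le_mul_of_nonneg_right h5 (mul_nonneg hV0 (mul_nonneg hp.le g.le))
        linarith
      exact le_of_mul_le_mul_right h7 hp
    have g := q_pos n (-(12 + 2 * K))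
    calc mu ^ N * q n (-(21 + 2 * K)) = (mu ^ N * q n (-9)) * q n (-(12 + 2 * K)) := by
          rw [mul_assoc, q_mul]; congr 2; ring
      _ ≤ (q n 12 * (V * q n (2 * K))) * q n (-(12 + 2 * K)) :=
          mul_le_mul_of_nonneg_right h6 g.le
      _ = V * ((q n 12 * q n (2 * K)) * q n (-(12 + 2 * K))) := by ring
      _ = V := by rw [q_mul, q_cancel, mul_one]
  have hdir := dir_card N ρ T (by
    intro x y hxy
    by_contra hcon
    push Not at hcon
    have h1 : |x| ≤ T - 1 := by omega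
    have h2 : |y| ≤ T - 1 := by omega
    have h3 : x ^ 2 ≤ (T - 1) ^ 2 := sq_le_sq' (by linarith [neg_abs_le x]) (by linarith [le_abs_self x])
    have h4 : y ^ 2 ≤ (T - 1) ^ 2 := sq_le_sq' (by linarith [neg_abs_le y]) (by linarith [le_abs_self y])
    have h5 : ρ ≤ 2 * (T - 1) ^ 2 := by linarith
    have h6 : (ρ : ℝ) ≤ 2 * (T - 1) ^ 2 := by exact_mod_cast h5
    nlinarith)
  have hdir' : (V : ℝ) ≤ 4 * ((fs (fun w => Saw w ∧ T ≤ dx w) N).card : ℝ) :=
    four_cast _ _ hdir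
  have h4 : (4 : ℝ) ≤ q n 6 := by
    have := pow_le_q hn 2
    have h4 : (2 : ℝ) ≤ n := by exact_mod_cast hn
    norm_num at this
    nlinarith
  set D : ℝ := ((fs (fun w => Saw w ∧ T ≤ dx w) N).card : ℝ) with hD
  have hD0 : 0 ≤ D := Nat.cast_nonneg _
  have h7 : mu ^ N * q n (-(21 + 2 * K)) ≤ q n 6 * D :=
    (hV1.trans hdir').trans (mul_le_mul_of_nonneg_right h4 hD0)
  have g := q_pos n (-6)
  calc mu ^ N * q n (-(27 + 2 * K)) = (mu ^ N * q n (-(21 + 2 * K))) * q n (-6) := by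
        rw [mul_assoc, q_mul]; congr 2; ring
    _ ≤ (q n 6 * D) * q n (-6) := mul_le_mul_of_nonneg_right h7 g.le
    _ = D * (q n 6 * q n (-6)) := by ring
    _ = D := by rw [q_cancel, mul_one]

theorem parity (w : List St) : (dx w + dy w - w.length) % 2 = 0 := by
  induction w with
  | nil => simp
  | cons s w ih =>
    rw [dx_cons, dy_cons, List.length_cons]
    push_cast
    cases s <;> simp <;> omega

theorem exists_of_a {m : ℕ} {x y : ℤ} (h : 0 < a m x y) :
    ∃ w : List St, Saw w ∧ dx w = x ∧ dy w = y ∧ w.length = m := by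
  unfold a at h
  rw [Finset.card_pos] at h
  obtain ⟨w, hw⟩ := h
  rw [mem_fs] at hw
  exact ⟨w, hw.1.1, hw.1.2.1, hw.1.2.2, hw.2⟩

theorem norm_bounds {x y : ℤ} {R : ℝ} (h : 10000 * ((x : ℝ) ^ 2 + (y : ℝ) ^ 2) ≤ R) :
    10000 * ((max |x| |y| : ℤ) : ℝ) ^ 2 ≤ R := by
  have h1 : ((max |x| |y| : ℤ) : ℝ) ^ 2 ≤ (x : ℝ) ^ 2 + (y : ℝ) ^ 2 := by
    rcases max_choice |x| |y| with h' | h' <;> rw [h']
    · push_cast
      rw [sq_abs]
      nlinarith [sq_nonneg (y : ℝ)]
    · push_cast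
      rw [sq_abs]
      nlinarith [sq_nonneg (x : ℝ)]
  linarith

/-- **The end point is everywhere, in words.** -/
theorem main_words : ∃ K : ℝ, 0 ≤ K ∧ ∀ n : ℕ, 2 ≤ n → ∀ x y : ℤ, (x, y) ≠ (0, 0) →
    (x + y - n) % 2 = 0 → 10000 * ((x : ℝ) ^ 2 + (y : ℝ) ^ 2) ≤ ms n →
    q n (-K) * c n ≤ a n x y := by
  obtain ⟨K, hK0, hup, har⟩ := exists_K
  refine ⟨4 * (27 + 2 * K) + 16 * K + 141 + K + 9 + K, by positivity, ?_⟩
  intro n hn x y hxy hpar hms
  have hmu := mu_pos
  have hK : Up n K := hup n hn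
  have hTm := norm_bounds hms
  have hT1 : 1 ≤ max |x| |y| := by
    by_contra hcon
    have h1 : |x| = 0 := le_antisymm (by omega) (abs_nonneg x)
    have h2 : |y| = 0 := le_antisymm (by omega) (abs_nonneg y)
    rw [abs_eq_zero] at h1 h2
    exact hxy (by rw [h1, h2])
  have hT1' : (1 : ℝ) ≤ ((max |x| |y| : ℤ) : ℝ) := by exact_mod_cast hT1
  have hn100 : 100 ≤ n := by
    have h1 := ms_le n
    have h2 : (10000 : ℝ) ≤ (n : ℝ) ^ 2 := by nlinarith
    have h3 : (100 : ℝ) ≤ n := by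
      by_contra hcon
      have h0 : (0 : ℝ) ≤ n := Nat.cast_nonneg n
      nlinarith
    exact_mod_cast h3
  have hR := reach_ms hn hK hTm
  obtain ⟨m, hm, h1⟩ := all_good hn hK0 (by positivity) hK (N := n / 12) (by omega) hR
    (x := x) (y := y) (by have := le_max_left |x| |y|; omega) (by have := le_max_right |x| |y|; omega)
  have hpos : 0 < a m x y := by
    have : (0 : ℝ) < a m x y := lt_of_lt_of_le (mul_pos (pow_pos hmu m) (q_pos n _)) h1
    exact_mod_cast this
  obtain ⟨w, _, hwx, hwy, hwl⟩ := exists_of_a hpos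
  have hp := parity w
  rw [hwx, hwy, hwl] at hp
  have hm1 : 1 ≤ m := by
    by_contra hcon
    have : w = [] := List.length_eq_zero_iff.1 (by omega)
    subst this
    simp at hwx hwy
    exact hxy (by rw [← hwx, ← hwy])
  obtain ⟨j, hj⟩ : ∃ j : ℕ, n = m + 2 * j := ⟨(n - m) / 2, by omega⟩
  have hj2 : 2 ≤ j := by omega
  have h2 := har n hn j hj2 (by omega)
  have h3 := a_mul_ar hm1 (2 * j - 1) x y
  have e : m + (2 * j - 1) + 1 = n := by omega
  rw [e] at h3
  have h3' : (a m x y : ℝ) * ar (2 * j - 1) ≤ 4 * m * a n x y := by exact_mod_cast h3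
  have h4 : (4 : ℝ) * m ≤ q n 9 := by
    have h5 := pow_le_q hn 3
    norm_num at h5
    refine le_trans ?_ h5
    have h6 : 4 * m ≤ n ^ 3 := by
      calc 4 * m ≤ 4 * n := by omega
        _ ≤ n ^ 2 * n := Nat.mul_le_mul_right n (by nlinarith)
        _ = n ^ 3 := by ring
    exact_mod_cast h6
  have ha0 : (0 : ℝ) ≤ a n x y := Nat.cast_nonneg _
  set A : ℝ := 4 * (27 + 2 * K) + 16 * K + 141 with hA
  have hlow : mu ^ n * q n (-(A + K)) ≤ q n 9 * a n x y := by
    have g1 := q_pos n (-A)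
    have g2 := q_pos n (-K)
    calc mu ^ n * q n (-(A + K)) = (mu ^ m * q n (-A)) * (mu ^ (2 * j) * q n (-K)) := by
          rw [show mu ^ m * q n (-A) * (mu ^ (2 * j) * q n (-K)) =
            (mu ^ m * mu ^ (2 * j)) * (q n (-A) * q n (-K)) by ring, ← pow_add, q_mul, ← hj]
          congr 2
          ring
      _ ≤ (a m x y : ℝ) * ar (2 * j - 1) := by
          have := pow_pos hmu (2 * j)
          exact mul_le_mul h1 h2 (by positivity) (Nat.cast_nonneg _)
      _ ≤ 4 * m * a n x y := h3'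
      _ ≤ _ := mul_le_mul_of_nonneg_right h4 ha0
  have hcn := hK n le_rfl
  have g := q_pos n (-(A + K + 9 + K))
  calc q n (-(A + K + 9 + K)) * c n ≤ q n (-(A + K + 9 + K)) * (mu ^ n * q n K) := by gcongr
    _ = (mu ^ n * q n (-(A + K))) * q n (-9) := by
        rw [show q n (-(A + K + 9 + K)) * (mu ^ n * q n K) =
          mu ^ n * (q n (-(A + K + 9 + K)) * q n K) by ring, q_mul, mul_assoc, q_mul]
        congr 2
        ring
    _ ≤ (q n 9 * a n x y) * q n (-9) := mul_le_mul_of_nonneg_right hlow (q_pos n _).le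
    _ = a n x y * (q n 9 * q n (-9)) := by ring
    _ = a n x y := by rw [q_cancel, mul_one]

/-! ### the critical two-point function -/

theorem exists_far {S : ℕ} (hS : 1 ≤ S) {w : List St} (hw : Saw w) (hlen : 4 * S ^ 2 ≤ w.length) :
    ∃ l ≤ w.length, (S : ℤ) ^ 2 ≤ nq (w.take l) := by
  by_contra hcon
  push Not at hcon
  have hb : ∀ l ≤ w.length, |dx (w.take l)| < S ∧ |dy (w.take l)| < S := by
    intro l hl
    have h := hcon l hl
    unfold nq at h
    have hS0 : (0 : ℤ) < S := by exact_mod_cast hS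
    constructor
    · exact abs_lt_of_sq_lt_sq (by nlinarith [sq_nonneg (dy (w.take l))]) hS0.le
    · exact abs_lt_of_sq_lt_sq (by nlinarith [sq_nonneg (dx (w.take l))]) hS0.le
  have hcard : (Finset.range (w.length + 1)).card ≤
      (Finset.Ioo (-(S : ℤ)) S ×ˢ Finset.Ioo (-(S : ℤ)) S).card := by
    apply Finset.card_le_card_of_injOn (fun k => path w k)
    · intro k hk
      simp only [Finset.coe_range, Set.mem_Iio] at hk
      obtain ⟨h0, h1⟩ := hb k (by omega)
      rw [abs_lt] at h0 h1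
      simp only [Finset.coe_product, Set.mem_prod, Finset.coe_Ioo, Set.mem_Ioo, path]
      exact ⟨h0, h1⟩
    · intro i hi j hj hij
      simp only [Finset.coe_range, Set.mem_Iio] at hi hj
      by_contra hne
      rcases Nat.lt_or_gt_of_ne hne with h | h
      · exact saw_iff'.1 hw i j h (by omega) hij
      · exact saw_iff'.1 hw j i h (by omega) hij.symm
  rw [Finset.card_range, Finset.card_product, Int.card_Ioo] at hcard
  have e : ((S : ℤ) - -(S : ℤ) - 1).toNat = 2 * S - 1 := by omega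
  rw [e] at hcard
  obtain ⟨s, rfl⟩ : ∃ s, S = s + 1 := ⟨S - 1, by omega⟩
  have e2 : 2 * (s + 1) - 1 = 2 * s + 1 := by omega
  rw [e2] at hcard
  nlinarith

theorem far_card (S N : ℕ) (hS : 1 ≤ S) (hN : 4 * S ^ 2 ≤ N) :
    c N ≤ ∑ l ∈ range (N + 1), (fs (fun w => Saw w ∧ (S : ℤ) ^ 2 ≤ nq w) l).card * c (N - l) := by
  classical
  unfold c
  have e : ∀ l : ℕ, (fs (fun w => Saw w ∧ (S : ℤ) ^ 2 ≤ nq w) l).card * (fs Saw (N - l)).card =
      (fs (fun w => Saw w ∧ (S : ℤ) ^ 2 ≤ nq w) l ×ˢ fs Saw (N - l)).card := by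
    intro l
    rw [Finset.card_product]
  simp only [e]
  rw [← Finset.card_sigma]
  apply card_le_of_decode (fun q => q.2.1 ++ q.2.2)
  intro w hw
  rw [mem_fs] at hw
  obtain ⟨hw1, hwl⟩ := hw
  obtain ⟨l, hl, hl2⟩ := exists_far hS hw1 (by omega)
  refine ⟨⟨l, (w.take l, w.drop l)⟩, ?_, List.take_append_drop _ _⟩
  rw [Finset.mem_sigma, Finset.mem_product, mem_fs, mem_fs, Finset.mem_range]
  simp only
  refine ⟨by omega, ⟨⟨hw1.subw (List.take_prefix _ _).isInfix, hl2⟩, ?_⟩,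
    hw1.subw (List.drop_suffix _ _).isInfix, ?_⟩
  · rw [List.length_take]; omega
  · rw [List.length_drop]; omega

theorem reach_box {n : ℕ} (hn : 2 ≤ n) {K : ℝ} (hK : Up n K) {N : ℕ} (hNn : N ≤ n) {Tm : ℕ}
    (hTm : 1 ≤ Tm) (hN : 16 * Tm ^ 2 ≤ N) : Reach n N Tm (13 + K) := by
  intro T hT1 hT
  have hmu := mu_pos
  obtain ⟨l, hl, h1⟩ : ∃ l ≤ N, mu ^ l * q n (-(7 + K)) ≤
      ((fs (fun w => Saw w ∧ ((2 * Tm : ℕ) : ℤ) ^ 2 ≤ nq w) l).card : ℝ) := by
    by_contra hcon
    push Not at hcon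
    have hcard := far_card (2 * Tm) N (by omega) (by nlinarith)
    have hcard' : (c N : ℝ) ≤ ∑ l ∈ range (N + 1),
        ((fs (fun w => Saw w ∧ ((2 * Tm : ℕ) : ℤ) ^ 2 ≤ nq w) l).card : ℝ) * c (N - l) := by
      exact_mod_cast hcard
    have hterm : ∀ l ∈ range (N + 1),
        ((fs (fun w => Saw w ∧ ((2 * Tm : ℕ) : ℤ) ^ 2 ≤ nq w) l).card : ℝ) * c (N - l) ≤
          mu ^ N * q n (-7) := by
      intro l hl
      rw [Finset.mem_range] at hl
      have e1 := (hcon l (by omega)).le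
      have e2 := hK (N - l) (by omega)
      have hp1 : (0 : ℝ) < mu ^ l := pow_pos hmu _
      have hp2 : (0 : ℝ) < mu ^ (N - l) := pow_pos hmu _
      have g1 := q_pos n (-(7 + K))
      have g2 := q_pos n K
      calc ((fs (fun w => Saw w ∧ ((2 * Tm : ℕ) : ℤ) ^ 2 ≤ nq w) l).card : ℝ) * c (N - l)
          ≤ (mu ^ l * q n (-(7 + K))) * (mu ^ (N - l) * q n K) := by gcongr
        _ = (mu ^ l * mu ^ (N - l)) * (q n (-(7 + K)) * q n K) := by ring
        _ = _ := by
            rw [← pow_add, q_mul]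
            congr 2
            · omega
            · ring
    have hsum := Finset.sum_le_card_nsmul _ _ _ hterm
    rw [Finset.card_range, nsmul_eq_mul] at hsum
    have hnum : (((N + 1 : ℕ)) : ℝ) ≤ q n 6 := by
      have h3 := pow_le_q hn 2
      norm_num at h3
      refine le_trans ?_ h3
      have h4 : N + 1 ≤ n ^ 2 := by nlinarith
      exact_mod_cast h4
    have hP : 0 < mu ^ N := pow_pos hmu _
    have g1 := q_pos n (-7)
    have hup : (((N + 1 : ℕ)) : ℝ) * (mu ^ N * q n (-7)) < mu ^ N := by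
      calc (((N + 1 : ℕ)) : ℝ) * (mu ^ N * q n (-7)) ≤ q n 6 * (mu ^ N * q n (-7)) := by gcongr
        _ = mu ^ N * q n (-1) := by
            rw [show q n 6 * (mu ^ N * q n (-7)) = mu ^ N * (q n 6 * q n (-7)) by ring, q_mul]
            norm_num
        _ < mu ^ N * q n 0 := mul_lt_mul_of_pos_left (q_lt hn (by norm_num)) hP
        _ = mu ^ N := by simp [q]
    have hlow := mu_pow_le N
    rw [← c_eq] at hlow
    linarith
  refine ⟨l, hl, ?_⟩
  have hdir := dir_card l (((2 * Tm : ℕ) : ℤ) ^ 2) T (by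
    intro x y hxy
    by_contra hcon
    push Not at hcon
    have h1 : |x| ≤ T - 1 := by omega
    have h2 : |y| ≤ T - 1 := by omega
    have h3 : x ^ 2 ≤ (T - 1) ^ 2 := sq_le_sq' (by linarith [neg_abs_le x]) (by linarith [le_abs_self x])
    have h4 : y ^ 2 ≤ (T - 1) ^ 2 := sq_le_sq' (by linarith [neg_abs_le y]) (by linarith [le_abs_self y])
    push_cast at hxy
    nlinarith)
  set V : ℝ := ((fs (fun w => Saw w ∧ ((2 * Tm : ℕ) : ℤ) ^ 2 ≤ nq w) l).card : ℝ) with hV
  have hdir' : V ≤ 4 * ((fs (fun w => Saw w ∧ T ≤ dx w) l).card : ℝ) := by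
    exact four_cast _ _ hdir
  have h4 : (4 : ℝ) ≤ q n 6 := by
    have := pow_le_q hn 2
    have h4 : (2 : ℝ) ≤ n := by exact_mod_cast hn
    norm_num at this
    nlinarith
  set D : ℝ := ((fs (fun w => Saw w ∧ T ≤ dx w) l).card : ℝ) with hD
  have hD0 : 0 ≤ D := Nat.cast_nonneg _
  have h7 : mu ^ l * q n (-(7 + K)) ≤ q n 6 * D :=
    (h1.trans hdir').trans (mul_le_mul_of_nonneg_right h4 hD0)
  have g := q_pos n (-6)
  calc mu ^ l * q n (-(13 + K)) = (mu ^ l * q n (-(7 + K))) * q n (-6) := by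
        rw [mul_assoc, q_mul]; congr 2; ring
    _ ≤ (q n 6 * D) * q n (-6) := mul_le_mul_of_nonneg_right h7 g.le
    _ = D * (q n 6 * q n (-6)) := by ring
    _ = D := by rw [q_cancel, mul_one]

/-- **The critical two-point function, in words.** -/
theorem two_point : ∃ K : ℝ, 0 ≤ K ∧ ∀ x y : ℤ, (x, y) ≠ (0, 0) →
    ∃ m : ℕ, m ≤ 100 * (|x| + |y|).toNat ^ 2 ∧
      mu ^ m * Real.exp (-(K * Real.log (2 + |(x : ℝ)| + |(y : ℝ)|) ^ 3)) ≤ a m x y := by
  obtain ⟨K, hK0, hup, -⟩ := exists_K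
  refine ⟨216 * (4 * (13 + K) + 16 * K + 141), by positivity, ?_⟩
  intro x y hxy
  obtain ⟨T, hT⟩ : ∃ T : ℕ, (T : ℤ) = max |x| |y| :=
    ⟨(max |x| |y|).toNat, Int.toNat_of_nonneg (le_max_of_le_left (abs_nonneg x))⟩
  have hT1 : 1 ≤ T := by
    by_contra hcon
    have h0 : max |x| |y| ≤ 0 := by rw [← hT]; omega
    have h1 : |x| = 0 := le_antisymm ((le_max_left _ _).trans h0) (abs_nonneg x)
    have h2 : |y| = 0 := le_antisymm ((le_max_right _ _).trans h0) (abs_nonneg y)
    rw [abs_eq_zero] at h1 h2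
    exact hxy (by rw [h1, h2])
  obtain ⟨n, hnd⟩ : ∃ n, n = 2 * (16 * T ^ 2) + 1 := ⟨_, rfl⟩
  have hn : 2 ≤ n := by nlinarith
  have hK : Up n K := hup n hn
  have hR := reach_box hn hK (N := 16 * T ^ 2) (by omega) hT1 le_rfl
  obtain ⟨m, hm, h1⟩ := all_good hn hK0 (by positivity) hK (N := 16 * T ^ 2) (by omega) hR
    (x := x) (y := y) (by have := le_max_left |x| |y|; omega) (by have := le_max_right |x| |y|; omega)
  refine ⟨m, ?_, ?_⟩
  · have h2 : T ≤ (|x| + |y|).toNat := by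
      have h3 := abs_nonneg x
      have h4 := abs_nonneg y
      have h5 : (T : ℤ) ≤ |x| + |y| := by
        rw [hT]
        exact max_le (by omega) (by omega)
      omega
    have h3 : T ^ 2 ≤ (|x| + |y|).toNat ^ 2 := Nat.pow_le_pow_left h2 2
    have h4 : 1 ≤ T ^ 2 := Nat.one_le_pow _ _ hT1
    omega
  · refine le_trans (mul_le_mul_of_nonneg_left ?_ (pow_nonneg mu_pos.le _)) h1
    unfold q
    apply Real.exp_le_exp.2
    set A : ℝ := 4 * (13 + K) + 16 * K + 141 with hA
    have hA0 : 0 ≤ A := by positivity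
    set Z : ℝ := 2 + |(x : ℝ)| + |(y : ℝ)| with hZ
    have hTZ : (2 : ℝ) + T ≤ Z := by
      have h2 : (T : ℝ) = max |(x : ℝ)| |(y : ℝ)| := by
        have := congrArg (Int.cast : ℤ → ℝ) hT
        push_cast at this
        exact this
      rw [h2, hZ]
      have h3 := abs_nonneg (x : ℝ)
      have h4 := abs_nonneg (y : ℝ)
      rcases max_choice |(x : ℝ)| |(y : ℝ)| with h5 | h5 <;> rw [h5] <;> linarith
    have hT1' : (1 : ℝ) ≤ T := by exact_mod_cast hT1
    have hZ3 : 3 ≤ Z := by linarith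
    have hnZ : (n : ℝ) ≤ Z ^ 6 := by
      have h2 : (n : ℝ) = 32 * (T : ℝ) ^ 2 + 1 := by rw [hnd]; push_cast; ring
      rw [h2]
      have h3 : (T : ℝ) ^ 2 ≤ Z ^ 2 := by
        apply pow_le_pow_left₀ (by linarith)
        linarith
      have h4 : (81 : ℝ) ≤ Z ^ 4 := by
        calc (81 : ℝ) = 3 ^ 4 := by norm_num
          _ ≤ Z ^ 4 := by gcongr
      have h5 : (1 : ℝ) ≤ (T : ℝ) ^ 2 := one_le_pow₀ hT1'
      calc 32 * (T : ℝ) ^ 2 + 1 ≤ 81 * (T : ℝ) ^ 2 := by linarith
        _ ≤ Z ^ 4 * Z ^ 2 := by gcongr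
        _ = Z ^ 6 := by ring
    have hlog : Real.log n ≤ 6 * Real.log Z := by
      have h2 := Real.log_le_log (by exact_mod_cast (by omega : 0 < n)) hnZ
      rw [Real.log_pow] at h2
      exact_mod_cast h2
    have hl0 := (log_pos' hn).le
    have h3 : Real.log n ^ 3 ≤ 216 * Real.log Z ^ 3 := by
      calc Real.log n ^ 3 ≤ (6 * Real.log Z) ^ 3 := pow_le_pow_left₀ hl0 hlog 3
        _ = _ := by ring
    nlinarith

end Pool.Agent.TH795.EP
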