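import Pool.Agent.TH795.EP.Cnt

/-!
Insertion of a polygon in a self-avoiding word with fixed ends.
-/

set_option autoImplicit false

namespace Pool.Agent.TH795.EP

open H981 Finset

/-- polygons without one edge of their top row -/
def Arch (t : List St) : Prop :=
  Saw t ∧ dx t = 1 ∧ dy t = 0 ∧ ∀ k, (path t k).2 ≤ 0

noncomputable def ar (n : ℕ) : ℕ := (fs Arch n).card

/-- there is a horizontal edge in the bottom row -/
def Bot (w : List St) : Prop :=
  ∃ (i : ℕ) (hi : i < w.length), (w[i] = St.E ∨ w[i] = St.W) ∧ ∀ k, (path w i).2 ≤ (path w k).2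

/-- the oriented arch -/
def tw (s : St) (t : List St) : List St := if s = St.E then t else sg t

theorem length_tw (s : St) (t : List St) : (tw s t).length = t.length := by
  unfold tw; split_ifs <;> simp

theorem saw_tw {s : St} {t : List St} (h : Saw t) : Saw (tw s t) := by
  unfold tw; split_ifs
  · exact h
  · exact h.sg

theorem dx_tw {s : St} {t : List St} (hs : s = St.E ∨ s = St.W) (h : dx t = 1) :
    dx (tw s t) = s.x := by
  rcases hs with rfl | rfl
  · simp [tw, h]
  · simp [tw, h]

theorem dy_tw {s : St} {t : List St} : dy (tw s t) = dy t := by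
  unfold tw; split_ifs <;> simp

theorem path_sg_snd (t : List St) (k : ℕ) : (path (sg t) k).2 = (path t k).2 := by
  unfold path sg
  simp only
  rw [← List.map_take]
  exact dy_sg _

theorem path_tw_snd {s : St} {t : List St} (k : ℕ) : (path (tw s t) k).2 = (path t k).2 := by
  unfold tw; split_ifs
  · rfl
  · exact path_sg_snd t k

/-- insertion -/
def ins (w : List St) (i : ℕ) (t' : List St) : List St :=
  w.take i ++ (St.S :: (t' ++ (St.N :: w.drop (i + 1))))

theorem length_ins {w : List St} {i : ℕ} (hi : i < w.length) (t' : List St) :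
    (ins w i t').length = w.length + t'.length + 1 := by
  unfold ins
  simp only [List.length_append, List.length_take, List.length_cons, List.length_drop]
  omega

theorem path_ins_left {w : List St} {i : ℕ} (hi : i < w.length) (t' : List St) {k : ℕ}
    (hk : k ≤ i) : path (ins w i t') k = path w k := by
  unfold ins
  rw [path_append_left (by rw [List.length_take]; omega), path_take hk]

theorem path_cons_succ (s : St) (w : List St) (k : ℕ) :
    path (s :: w) (k + 1) = (s.x + (path w k).1, s.y + (path w k).2) := by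
  unfold path
  rw [List.take_succ_cons, dx_cons, dy_cons]

theorem path_ins_mid {w : List St} {i : ℕ} (hi : i < w.length) (t' : List St) {l : ℕ}
    (hl : l ≤ t'.length) : path (ins w i t') (i + (l + 1)) =
      ((path w i).1 + (path t' l).1, (path w i).2 - 1 + (path t' l).2) := by
  have hlen : (w.take i).length = i := by rw [List.length_take]; omega
  have := path_append_right (w.take i) (St.S :: (t' ++ (St.N :: w.drop (i + 1)))) (l + 1)
  rw [hlen] at this
  unfold ins
  rw [this, path_cons_succ, path_append_left hl]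
  unfold path
  simp only [St.x_S, St.y_S, Prod.mk.injEq]
  constructor <;> ring

theorem path_ins_right {w : List St} {i : ℕ} (hi : i < w.length) {t' : List St}
    (hx : dx t' = (w[i]).x) (hy : dy t' = (w[i]).y) (l : ℕ) :
    path (ins w i t') (i + (t'.length + (l + 1) + 1)) = path w (i + 1 + l) := by
  have hlen : (w.take i).length = i := by rw [List.length_take]; omega
  have := path_append_right (w.take i) (St.S :: (t' ++ (St.N :: w.drop (i + 1))))
    (t'.length + (l + 1) + 1)
  rw [hlen] at this
  unfold ins
  rw [this, path_cons_succ, path_append_right, path_cons_succ, path_drop w (i + 1) l]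
  obtain ⟨e1, e2⟩ := path_succ hi
  rw [e1, e2]
  unfold path
  simp only [St.x_S, St.y_S, St.x_N, St.y_N, Prod.mk.injEq]
  constructor
  · omega
  · omega

theorem saw_ins {w : List St} {i : ℕ} (hw : Saw w) (hi : i < w.length) {t' : List St}
    (ht : Saw t') (hx : dx t' = (w[i]).x) (hy : dy t' = (w[i]).y)
    (hmin : ∀ k, (path w i).2 ≤ (path w k).2) (hneg : ∀ k, (path t' k).2 ≤ 0) :
    Saw (ins w i t') := by
  rw [saw_iff']
  intro k l hkl hl
  rw [length_ins hi] at hl
  have hw' := saw_iff'.1 hw
  have ht' := saw_iff'.1 ht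
  -- classification of the indices
  have cls : ∀ k, k ≤ w.length + t'.length + 1 → (k ≤ i) ∨ (∃ m, m ≤ t'.length ∧ k = i + (m + 1)) ∨
      ∃ m, k = i + (t'.length + (m + 1) + 1) ∧ i + 1 + m ≤ w.length := by
    intro k hk
    by_cases h1 : k ≤ i
    · left; exact h1
    · by_cases h2 : k ≤ i + (t'.length + 1)
      · right; left
        exact ⟨k - i - 1, by omega, by omega⟩
      · right; right
        exact ⟨k - i - t'.length - 2, by omega, by omega⟩
  rcases cls k (by omega) with h1 | ⟨m1, hm1, h1⟩ | ⟨m1, h1, hm1⟩ <;>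
    rcases cls l (by omega) with h2 | ⟨m2, hm2, h2⟩ | ⟨m2, h2, hm2⟩
  · rw [path_ins_left hi t' h1, path_ins_left hi t' h2]
    exact hw' k l hkl (by omega)
  · rw [h2, path_ins_left hi t' h1, path_ins_mid hi t' hm2]
    intro he
    have e2 := congrArg Prod.snd he
    simp only at e2
    have := hmin k
    have := hneg m2
    omega
  · rw [h2, path_ins_left hi t' h1, path_ins_right hi hx hy]
    exact hw' k _ (by omega) hm2
  · omega
  · rw [h1, h2, path_ins_mid hi t' hm1, path_ins_mid hi t' hm2]
    intro he
    have e1 := congrArg Prod.fst he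
    have e2 := congrArg Prod.snd he
    simp only at e1 e2
    exact ht' m1 m2 (by omega) hm2 (Prod.ext (by omega) (by omega))
  · rw [h1, h2, path_ins_mid hi t' hm1, path_ins_right hi hx hy]
    intro he
    have e2 := congrArg Prod.snd he
    simp only at e2
    have := hmin (i + 1 + m2)
    have := hneg m1
    omega
  · omega
  · omega
  · rw [h1, h2, path_ins_right hi hx hy, path_ins_right hi hx hy]
    exact hw' _ _ (by omega) hm2

theorem disp_ins {w : List St} {i : ℕ} (hi : i < w.length) {t' : List St}
    (hx : dx t' = (w[i]).x) (hy : dy t' = (w[i]).y) :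
    dx (ins w i t') = dx w ∧ dy (ins w i t') = dy w := by
  have h1 := path_ins_right hi hx hy (w.length - (i + 1))
  have h2 : i + (t'.length + (w.length - (i + 1) + 1) + 1) = (ins w i t').length := by
    rw [length_ins hi]; omega
  have h3 : i + 1 + (w.length - (i + 1)) = w.length := by omega
  rw [h2, h3, path_len, path_len] at h1
  exact ⟨congrArg Prod.fst h1, congrArg Prod.snd h1⟩

/-- number of words with a bottom edge -/
noncomputable def bc (m : ℕ) (x y : ℤ) : ℕ :=
  (fs (fun w => Saw w ∧ dx w = x ∧ dy w = y ∧ Bot w) m).card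

theorem bc_mul_ar (m L : ℕ) (x y : ℤ) : bc m x y * ar L ≤ m * a (m + L + 1) x y := by
  classical
  unfold bc ar a
  have e : m * (fs (fun w => Saw w ∧ dx w = x ∧ dy w = y) (m + L + 1)).card =
      (range m ×ˢ fs (fun w => Saw w ∧ dx w = x ∧ dy w = y) (m + L + 1)).card := by
    rw [Finset.card_product, Finset.card_range]
  rw [← Finset.card_product, e]
  apply card_le_of_decode (fun q => (q.2.take q.1 ++
    ((if dx ((q.2.drop (q.1 + 1)).take L) = 1 then St.E else St.W) ::
      q.2.drop (q.1 + 1 + L + 1)),
    (if dx ((q.2.drop (q.1 + 1)).take L) = 1 then (q.2.drop (q.1 + 1)).take L else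
      sg ((q.2.drop (q.1 + 1)).take L))))
  rintro ⟨w, t⟩ h
  rw [Finset.mem_product, mem_fs, mem_fs] at h
  obtain ⟨⟨⟨hw, hwx, hwy, i, hi, hs, hmin⟩, hwl⟩, ⟨ht, htx, hty, htn⟩, htl⟩ := h
  simp only at hw hwx hwy hi hs hmin hwl ht htx hty htn htl
  have hx : dx (tw w[i] t) = (w[i]).x := dx_tw hs htx
  have hy : dy (tw w[i] t) = (w[i]).y := by
    rw [dy_tw, hty]
    rcases hs with h | h <;> rw [h] <;> rfl
  have hlt : (tw w[i] t).length = L := by rw [length_tw, htl]
  have hd := disp_ins hi hx hy
  refine ⟨(i, ins w i (tw w[i] t)), ?_, ?_⟩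
  · rw [Finset.mem_product, mem_fs, Finset.mem_range]
    refine ⟨by omega, ⟨saw_ins hw hi (saw_tw ht) hx hy hmin fun k => ?_, ?_, ?_⟩, ?_⟩
    · rw [path_tw_snd]; exact htn k
    · rw [hd.1, hwx]
    · rw [hd.2, hwy]
    · simp only
      rw [length_ins hi, hlt, hwl]
  · simp only
    have hlen : (w.take i).length = i := by rw [List.length_take]; omega
    have g1 : (ins w i (tw w[i] t)).take i = w.take i := by
      unfold ins
      have := List.take_left (l₁ := w.take i)
        (l₂ := St.S :: (tw w[i] t ++ (St.N :: w.drop (i + 1))))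
      rwa [hlen] at this
    have g2 : (ins w i (tw w[i] t)).drop (i + 1) = tw w[i] t ++ (St.N :: w.drop (i + 1)) := by
      unfold ins
      have := List.drop_left (l₁ := w.take i)
        (l₂ := St.S :: (tw w[i] t ++ (St.N :: w.drop (i + 1))))
      rw [hlen] at this
      rw [← List.drop_drop, this, List.drop_succ_cons, List.drop_zero]
    have g3 : ((ins w i (tw w[i] t)).drop (i + 1)).take L = tw w[i] t := by
      rw [g2]
      have := List.take_left (l₁ := tw w[i] t) (l₂ := St.N :: w.drop (i + 1))
      rwa [hlt] at this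
    have g4 : (ins w i (tw w[i] t)).drop (i + 1 + L + 1) = w.drop (i + 1) := by
      have := List.drop_left (l₁ := tw w[i] t) (l₂ := St.N :: w.drop (i + 1))
      rw [hlt] at this
      rw [show i + 1 + L + 1 = (i + 1) + L + 1 by ring, ← List.drop_drop, ← List.drop_drop, g2,
        this, List.drop_succ_cons, List.drop_zero]
    rw [g1, g3, g4, hx]
    have hw2 : w.take i ++ (w[i] :: w.drop (i + 1)) = w := by
      rw [← List.drop_eq_getElem_cons hi, List.take_append_drop]
    rcases hs with h | h
    · rw [h, St.x_E, if_pos rfl, if_pos rfl]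
      rw [h] at hw2
      simp only [hw2, tw, if_true]
    · rw [h, St.x_W, if_neg (by norm_num), if_neg (by norm_num)]
      rw [h] at hw2
      have : tw St.W t = sg t := by simp [tw]
      rw [hw2, this, sg_sg]

/-! ### one of the four sides has an edge -/

theorem not_bot {w : List St} (hw : Saw w) (h0 : 0 < w.length) (hb : ¬ Bot w) :
    w[0] = St.N ∨ w[w.length - 1] = St.S := by
  classical
  obtain ⟨i, hi, hmin⟩ : ∃ i ∈ range (w.length + 1), ∀ k ∈ range (w.length + 1),
      (path w i).2 ≤ (path w k).2 :=
    Finset.exists_min_image (range (w.length + 1)) (fun k => (path w k).2) ⟨0, by simp⟩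
  have hmin' : ∀ k, (path w i).2 ≤ (path w k).2 := by
    intro k
    rcases le_or_gt k w.length with h | h
    · exact hmin k (by rw [Finset.mem_range]; omega)
    · have : path w k = path w w.length := by
        unfold path
        rw [List.take_of_length_le h.le, List.take_length]
      rw [this]
      exact hmin _ (by rw [Finset.mem_range]; omega)
  rw [Finset.mem_range] at hi
  unfold Bot at hb
  push Not at hb
  -- the step after `i` goes up, the step before `i` goes down
  have up : ∀ h : i < w.length, w[i] = St.N := by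
    intro h
    have h1 := (path_succ h).2
    have h2 := hmin' (i + 1)
    cases hs : w[i] with
    | E => exact absurd (hb i h (Or.inl hs)) (by push Not; exact hmin')
    | W => exact absurd (hb i h (Or.inr hs)) (by push Not; exact hmin')
    | N => rfl
    | S => rw [hs] at h1; simp at h1; omega
  have down : ∀ h : 0 < i, w[i - 1] = St.S := by
    intro h
    have hlt : i - 1 < w.length := by omega
    have h1 := (path_succ hlt).2
    rw [Nat.sub_add_cancel h] at h1
    have h2 := hmin' (i - 1)
    cases hs : w[i - 1] with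
    | E =>
      rw [hs] at h1
      refine absurd (hb (i - 1) hlt (Or.inl hs)) ?_
      push Not
      intro k
      have := hmin' k
      simp at h1
      omega
    | W =>
      rw [hs] at h1
      refine absurd (hb (i - 1) hlt (Or.inr hs)) ?_
      push Not
      intro k
      have := hmin' k
      simp at h1
      omega
    | N => rw [hs] at h1; simp at h1; omega
    | S => rfl
  rcases Nat.eq_zero_or_pos i with h | h
  · left
    have := up (by omega)
    subst h
    exact this
  · rcases lt_or_ge i w.length with h2 | h2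
    · exfalso
      have u := up h2
      have d := down h
      have hlt : i - 1 < w.length := by omega
      have p1 := path_succ hlt
      rw [Nat.sub_add_cancel h, d] at p1
      have p2 := path_succ h2
      rw [u] at p2
      refine saw_iff'.1 hw (i - 1) (i + 1) (by omega) (by omega) (Prod.ext ?_ ?_)
      · simp at p1 p2; omega
      · simp at p1 p2; omega
    · right
      have d := down h
      have : i = w.length := by omega
      subst this
      exact d

theorem bot_or {w : List St} (hw : Saw w) (h0 : 0 < w.length) :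
    Bot w ∨ Bot (ng w) ∨ Bot (sw w) ∨ Bot (ng (sw w)) := by
  by_contra hcon
  push Not at hcon
  obtain ⟨h1, h2, h3, h4⟩ := hcon
  have k1 := not_bot hw h0 h1
  have k2 := not_bot hw.ng (by simpa using h0) h2
  have k3 := not_bot (saw_sw hw) (by simpa [sw] using h0) h3
  have k4 := not_bot (saw_sw hw).ng (by simpa [sw] using h0) h4
  simp only [ng, sw, List.getElem_map, List.length_map] at k2 k3 k4
  cases e1 : w[0] <;> cases e2 : w[w.length - 1] <;>
    simp [e1, e2, sws, St.ng] at k1 k2 k3 k4

theorem a_le_bc {m : ℕ} (hm : 1 ≤ m) (x y : ℤ) :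
    a m x y ≤ bc m x y + (bc m x (-y) + (bc m y x + bc m y (-x))) := by
  classical
  unfold a bc
  rw [← Finset.card_disjSum, ← Finset.card_disjSum, ← Finset.card_disjSum]
  apply card_le_of_decode (fun q => Sum.elim id (Sum.elim ng (Sum.elim sw (fun w => sw (ng w)))) q)
  intro w hw
  rw [mem_fs] at hw
  obtain ⟨⟨hw1, hx, hy⟩, hwl⟩ := hw
  rcases bot_or hw1 (by omega) with h | h | h | h
  · refine ⟨Sum.inl w, ?_, rfl⟩
    rw [Finset.inl_mem_disjSum, mem_fs]
    exact ⟨⟨hw1, hx, hy, h⟩, hwl⟩
  · refine ⟨Sum.inr (Sum.inl (ng w)), ?_, by simp⟩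
    rw [Finset.inr_mem_disjSum, Finset.inl_mem_disjSum, mem_fs]
    exact ⟨⟨hw1.ng, by rw [dx_ng, hx], by rw [dy_ng, hy], h⟩, by rw [length_ng, hwl]⟩
  · refine ⟨Sum.inr (Sum.inr (Sum.inl (sw w))), ?_, by simp [sw_sw]⟩
    rw [Finset.inr_mem_disjSum, Finset.inr_mem_disjSum, Finset.inl_mem_disjSum, mem_fs]
    exact ⟨⟨saw_sw hw1, by rw [dx_sw, hy], by rw [dy_sw, hx], h⟩, by rw [length_sw, hwl]⟩
  · refine ⟨Sum.inr (Sum.inr (Sum.inr (ng (sw w)))), ?_, by simp [sw_sw]⟩
    rw [Finset.inr_mem_disjSum, Finset.inr_mem_disjSum, Finset.inr_mem_disjSum, mem_fs]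
    exact ⟨⟨(saw_sw hw1).ng, by rw [dx_ng, dx_sw, hy], by rw [dy_ng, dy_sw, hx], h⟩,
      by rw [length_ng, length_sw, hwl]⟩

/-- **Insertion of a polygon.** -/
theorem a_mul_ar {m : ℕ} (hm : 1 ≤ m) (L : ℕ) (x y : ℤ) :
    a m x y * ar L ≤ 4 * m * a (m + L + 1) x y := by
  have h1 := a_le_bc hm x y
  have h2 := bc_mul_ar m L x y
  have h3 := bc_mul_ar m L x (-y)
  have h4 := bc_mul_ar m L y x
  have h5 := bc_mul_ar m L y (-x)
  rw [a_ng] at h3
  rw [a_sw] at h4
  rw [a_ng, a_sw] at h5
  calc a m x y * ar L ≤ (bc m x y + (bc m x (-y) + (bc m y x + bc m y (-x)))) * ar L :=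
        Nat.mul_le_mul_right _ h1
    _ = bc m x y * ar L + (bc m x (-y) * ar L + (bc m y x * ar L + bc m y (-x) * ar L)) := by ring
    _ ≤ m * a (m + L + 1) x y + (m * a (m + L + 1) x y + (m * a (m + L + 1) x y +
        m * a (m + L + 1) x y)) := by omega
    _ = _ := by ring

end Pool.Agent.TH795.EP
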